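import Pool.Agent.Typ.Supp

open Set Metric Topology
open scoped InnerProductSpace Pointwise NNReal

namespace Typ

variable {V : Type*} [NormedAddCommGroup V] [InnerProductSpace ℝ V]

/-- two homothets of a convex body with disjoint interiors are separated by a unit vector -/
theorem norm_sep [FiniteDimensional ℝ V] (K : ConvexBody V)
    (hK : (interior (K : Set V)).Nonempty) (x x' : V) {c c' : ℝ} (hc : 0 < c) (hc' : 0 < c')
    (hd : Disjoint (interior ((fun y => x + c • y) '' (K : Set V)))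
      (interior ((fun y => x' + c' • y) '' (K : Set V)))) :
    ∃ w : V, ‖w‖ = 1 ∧ c' * h K w + c * h K (-w) ≤ ⟪w, x - x'⟫_ℝ := by
  have : CompleteSpace V := FiniteDimensional.complete ℝ V
  have hmap : ∀ (z : V) (r : ℝ), 0 < r → ∀ y ∈ interior (K : Set V),
      z + r • y ∈ interior ((fun y => z + r • y) '' (K : Set V)) := by
    intro z r hr y hy
    have h1 := ((Homeomorph.smulOfNeZero r hr.ne').trans
      (Homeomorph.addLeft z)).image_interior (K : Set V)
    have h2 : ⇑((Homeomorph.smulOfNeZero r hr.ne').trans (Homeomorph.addLeft z)) =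
        fun y : V => z + r • y := rfl
    rw [h2] at h1
    rw [← h1]
    exact ⟨y, hy, rfl⟩
  have hcv : ∀ (z : V) (r : ℝ), Convex ℝ (interior ((fun y => z + r • y) '' (K : Set V))) :=
    fun z r => (K.convex.affinity z r).interior
  obtain ⟨f, u, hf1, hf2⟩ := geometric_hahn_banach_open_open (hcv x' c') isOpen_interior
    (hcv x c) isOpen_interior hd.symm
  set w0 : V := (InnerProductSpace.toDual ℝ V).symm f with hw0
  have hfw : ∀ y, ⟪w0, y⟫_ℝ = f y := fun y => InnerProductSpace.toDual_symm_apply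
  have hcl : closure (interior (K : Set V)) = (K : Set V) := by
    rw [K.convex.closure_interior_eq_closure_of_nonempty_interior hK, K.isClosed.closure_eq]
  -- the closed inequalities
  have h1 : ∀ y ∈ K, ⟪w0, x' + c' • y⟫_ℝ ≤ u := by
    intro y hy
    have hy' : y ∈ closure (interior (K : Set V)) := by rw [hcl]; exact hy
    have hsub : interior (K : Set V) ⊆ {y : V | ⟪w0, x' + c' • y⟫_ℝ ≤ u} := by
      intro z hz
      show ⟪w0, x' + c' • z⟫_ℝ ≤ u
      rw [hfw]
      exact (hf1 _ (hmap x' c' hc' z hz)).le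
    have hclosed : IsClosed {y : V | ⟪w0, x' + c' • y⟫_ℝ ≤ u} :=
      isClosed_le (by fun_prop) continuous_const
    exact closure_minimal hsub hclosed hy'
  have h2 : ∀ y ∈ K, u ≤ ⟪w0, x + c • y⟫_ℝ := by
    intro y hy
    have hy' : y ∈ closure (interior (K : Set V)) := by rw [hcl]; exact hy
    have hsub : interior (K : Set V) ⊆ {y : V | u ≤ ⟪w0, x + c • y⟫_ℝ} := by
      intro z hz
      show u ≤ ⟪w0, x + c • z⟫_ℝ
      rw [hfw]
      exact (hf2 _ (hmap x c hc z hz)).le
    have hclosed : IsClosed {y : V | u ≤ ⟪w0, x + c • y⟫_ℝ} :=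
      isClosed_le continuous_const (by fun_prop)
    exact closure_minimal hsub hclosed hy'
  obtain ⟨z, hz⟩ := hK
  have hw0ne : w0 ≠ 0 := by
    intro h0
    have e1 := hf1 _ (hmap x' c' hc' z hz)
    have e2 := hf2 _ (hmap x c hc z hz)
    rw [← hfw, h0, inner_zero_left] at e1 e2
    linarith
  have hn : 0 < ‖w0‖ := norm_pos_iff.2 hw0ne
  refine ⟨‖w0‖⁻¹ • w0, ?_, ?_⟩
  · rw [norm_smul, norm_inv, norm_norm, inv_mul_cancel₀ hn.ne']
  · obtain ⟨a, ha, ea⟩ := exists_h K (‖w0‖⁻¹ • w0)
    obtain ⟨b, hb, eb⟩ := exists_h K (-(‖w0‖⁻¹ • w0))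
    rw [← ea, ← eb]
    have h3 := (h1 a ha).trans (h2 b hb)
    have h4 := mul_le_mul_of_nonneg_left h3 (inv_nonneg.2 hn.le)
    simp only [inner_add_right, real_inner_smul_right, real_inner_smul_left, inner_neg_left,
      inner_sub_right] at h4 ⊢
    nlinarith

theorem exists_clq [FiniteDimensional ℝ V] (K : ConvexBody V) (hK : (interior (K : Set V)).Nonempty)
    (n : ℕ) (x : Fin (n + 1) → V) (c : Fin (n + 1) → ℝ) (hc : ∀ i, 0 < c i)
    (ht : ∀ i j, i ≠ j →
      (((fun y => x i + c i • y) '' (K : Set V)) ∩ ((fun y => x j + c j • y) '' (K : Set V))).Nonempty ∧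
      Disjoint (interior ((fun y => x i + c i • y) '' (K : Set V)))
        (interior ((fun y => x j + c j • y) '' (K : Set V)))) :
    ∃ (m : ℕ) (q : Fin n → V × ℝ) (w : Fin (n + 1) → Fin (n + 1) → V), Clq (m : ℝ) K q w := by
  classical
  have hc0 : 0 < c 0 := hc 0
  -- the normalised data
  set q : Fin n → V × ℝ := fun i => ((c 0)⁻¹ • (x i.succ - x 0), (c 0)⁻¹ * c i.succ) with hq
  have hX : ∀ i, X q i = (c 0)⁻¹ • (x i - x 0) := by
    intro i
    refine Fin.cases ?_ (fun i => ?_) i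
    · simp [X]
    · simp [X, hq]
  have hL : ∀ i, L q i = (c 0)⁻¹ * c i := by
    intro i
    refine Fin.cases ?_ (fun i => ?_) i
    · simp [L, hc0.ne']
    · simp [L, hq]
  have hLpos : ∀ i, 0 < L q i := fun i => by rw [hL]; exact mul_pos (inv_pos.2 hc0) (hc i)
  -- intersection
  have hI : ∀ i j, ∀ v : V, i ≠ j →
      ⟪v, x i - x j⟫_ℝ ≤ c j * h K v + c i * h K (-v) := by
    intro i j v hij
    obtain ⟨p, ⟨a, ha, hpa⟩, b, hb, hpb⟩ := (ht i j hij).1
    have e : x i + c i • a = x j + c j • b := by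
      have e1 : x i + c i • a = p := hpa
      have e2 : x j + c j • b = p := hpb
      rw [e1, e2]
    have e' : x i - x j = c j • b - c i • a := by
      rw [sub_eq_sub_iff_add_eq_add, e, add_comm]
    rw [e', inner_sub_right, real_inner_smul_right, real_inner_smul_right]
    have f1 := mul_le_mul_of_nonneg_left (le_h K v hb) (hc j).le
    have f2 := mul_le_mul_of_nonneg_left (le_h K (-v) ha) (hc i).le
    rw [inner_neg_left] at f2
    linarith
  -- separation
  have hS : ∀ i j, i ≠ j → ∃ w : V, ‖w‖ = 1 ∧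
      c j * h K w + c i * h K (-w) ≤ ⟪w, x i - x j⟫_ℝ := fun i j hij =>
    norm_sep K hK (x i) (x j) (hc i) (hc j) (ht i j hij).2
  choose! w0 hw1 hw2 using hS
  set w : Fin (n + 1) → Fin (n + 1) → V := fun i j =>
    if i = j then 0 else if i < j then w0 i j else - w0 j i with hw
  have hwii : ∀ i, w i i = 0 := fun i => by simp [hw]
  have hwlt : ∀ i j, i < j → w i j = w0 i j := fun i j hij => by
    simp [hw, hij.ne, hij]
  have hwgt : ∀ i j, i < j → w j i = - w0 i j := fun i j hij => by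
    simp [hw, hij.ne', hij.le]
  have hanti : ∀ i j, w j i = - w i j := by
    intro i j
    rcases lt_trichotomy i j with hij | hij | hij
    · rw [hwlt i j hij, hwgt i j hij]
    · subst hij; rw [hwii]; simp
    · rw [hwlt j i hij, hwgt j i hij, neg_neg]
  have hunit : ∀ i j, i ≠ j → ‖w i j‖ = 1 := by
    intro i j hij
    rcases lt_or_gt_of_ne hij with h1 | h1
    · rw [hwlt i j h1]; exact hw1 i j hij
    · rw [hwgt j i h1, norm_neg]; exact hw1 j i hij.symm
  have hTlt : ∀ i j, i < j → ⟪w i j, x i - x j⟫_ℝ = c j * h K (w i j) + c i * h K (-(w i j)) := by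
    intro i j hij
    apply le_antisymm (hI i j _ hij.ne)
    rw [hwlt i j hij]
    exact hw2 i j hij.ne
  have hT : ∀ i j, i ≠ j →
      ⟪w i j, x i - x j⟫_ℝ = c j * h K (w i j) + c i * h K (-(w i j)) := by
    intro i j hij
    rcases lt_or_gt_of_ne hij with h1 | h1
    · exact hTlt i j h1
    · have h2 := hTlt j i h1
      have h3 : w j i = - w i j := hanti i j
      rw [h3, neg_neg] at h2
      have h4 : ⟪w i j, x i - x j⟫_ℝ = ⟪- w i j, x j - x i⟫_ℝ := by
        rw [← neg_sub (x i) (x j), inner_neg_neg]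
      rw [h4, h2]; ring
  have hdiff : ∀ i j, X q i - X q j = (c 0)⁻¹ • (x i - x j) := by
    intro i j
    rw [hX, hX, ← smul_sub]
    congr 1
    abel
  -- the bound
  obtain ⟨m, hm⟩ : ∃ m : ℕ, ∀ i, ‖X q i‖ ≤ m ∧ (L q i)⁻¹ ≤ m ∧ L q i ≤ m := by
    have key : ∀ g : Fin (n + 1) → ℝ, ∃ m : ℕ, ∀ i, g i ≤ m := by
      intro g
      obtain ⟨m, hm⟩ := exists_nat_ge (∑ i, |g i|)
      refine ⟨m, fun i => (le_abs_self _).trans ?_⟩
      exact (Finset.single_le_sum (f := fun i => |g i|) (fun i _ => abs_nonneg _)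
        (Finset.mem_univ i)).trans hm
    obtain ⟨m, hm⟩ := key (fun i => ‖X q i‖ + (L q i)⁻¹ + L q i)
    refine ⟨m, fun i => ?_⟩
    have h1 := hm i
    have h2 := norm_nonneg (X q i)
    have h3 := hLpos i
    have h4 := inv_pos.2 h3
    exact ⟨by linarith, by linarith, by linarith⟩
  have hm0 : (0 : ℝ) < m := (hLpos 0).trans_le (hm 0).2.2
  refine ⟨m, q, w, fun i => (hm i).1, fun i => ⟨?_, (hm i).2.2⟩, hwii, hunit, hanti, ?_, ?_⟩
  · exact inv_le_of_inv_le₀ (hLpos i) (hm i).2.1
  · intro i j hij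
    rw [hdiff, hL, hL, real_inner_smul_right, hT i j hij]
    ring
  · intro i j v hij
    rw [hdiff, hL, hL, real_inner_smul_right]
    have := mul_le_mul_of_nonneg_left (hI i j v hij) (inv_nonneg.2 hc0.le)
    linarith

end Typ
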