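import Pool.Agent.Typ.Clos

/-! M13: from density of the bodies without bounded cliques to residual sets. -/

open Set Metric Topology Filter
open scoped InnerProductSpace Pointwise NNReal

namespace Typ

variable {V : Type*} [NormedAddCommGroup V] [InnerProductSpace ℝ V]

/-- the bodies with an `m`-clique form a closed set -/
theorem isClosed_hasClq [FiniteDimensional ℝ V] (n : ℕ) (m : ℝ) :
    IsClosed {K : ConvexBody V | ∃ (q : Fin n → V × ℝ) (w : Fin (n + 1) → Fin (n + 1) → V),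
      Clq m K q w} := by
  have h := clq_proj (V := V) (n := n) m univ isClosed_univ
  simpa using h

/-- Residual wrapper in a class `S` of bodies (with the subspace topology): if the bodies of `S`
without an `m`-clique are dense in `S` for all `m`, the bodies of `S` without any clique form a
residual set in `S`. -/
theorem residual_subtype [FiniteDimensional ℝ V] {n : ℕ} (S : Set (ConvexBody V))
    (H : ∀ (m : ℕ) (K : ConvexBody V), K ∈ S → ∀ ε : ℝ, 0 < ε →
      ∃ K' ∈ S, dist K' K < ε ∧ ¬ ∃ (q : Fin n → V × ℝ) (w : Fin (n + 1) → Fin (n + 1) → V),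
        Clq (m : ℝ) K' q w) :
    ∀ᶠ K : S in residual S, ¬ ∃ (m : ℕ) (q : Fin n → V × ℝ)
      (w : Fin (n + 1) → Fin (n + 1) → V), Clq (m : ℝ) (K : ConvexBody V) q w := by
  have key : ∀ m : ℕ, ∀ᶠ K : S in residual S, ¬ ∃ (q : Fin n → V × ℝ)
      (w : Fin (n + 1) → Fin (n + 1) → V), Clq (m : ℝ) (K : ConvexBody V) q w := by
    intro m
    have hopen : IsOpen {K : S | ¬ ∃ (q : Fin n → V × ℝ)
        (w : Fin (n + 1) → Fin (n + 1) → V), Clq (m : ℝ) (K : ConvexBody V) q w} :=
      ((isClosed_hasClq n (m : ℝ)).preimage continuous_subtype_val).isOpen_compl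
    have hdense : Dense {K : S | ¬ ∃ (q : Fin n → V × ℝ)
        (w : Fin (n + 1) → Fin (n + 1) → V), Clq (m : ℝ) (K : ConvexBody V) q w} := by
      rw [Metric.dense_iff]
      intro K r hr
      obtain ⟨K', hK', hd, hn⟩ := H m K K.2 r hr
      exact ⟨⟨K', hK'⟩, by rw [Metric.mem_ball]; exact hd, hn⟩
    exact residual_of_dense_open hopen hdense
  have h2 := eventually_countable_forall.2 key
  filter_upwards [h2] with K hK
  rintro ⟨m, q, w, hc⟩
  exact hK m ⟨q, w, hc⟩

/-- Residual wrapper for the whole space of bodies. -/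
theorem residual_bodies [FiniteDimensional ℝ V] {n : ℕ}
    (H : ∀ (m : ℕ) (K : ConvexBody V) (ε : ℝ), 0 < ε →
      ∃ K' : ConvexBody V, dist K' K < ε ∧
        ¬ ∃ (q : Fin n → V × ℝ) (w : Fin (n + 1) → Fin (n + 1) → V), Clq (m : ℝ) K' q w) :
    ∀ᶠ K : ConvexBody V in residual (ConvexBody V), ¬ ∃ (m : ℕ) (q : Fin n → V × ℝ)
      (w : Fin (n + 1) → Fin (n + 1) → V), Clq (m : ℝ) K q w := by
  have key : ∀ m : ℕ, ∀ᶠ K : ConvexBody V in residual (ConvexBody V), ¬ ∃ (q : Fin n → V × ℝ)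
      (w : Fin (n + 1) → Fin (n + 1) → V), Clq (m : ℝ) K q w := by
    intro m
    have hdense : Dense {K : ConvexBody V | ¬ ∃ (q : Fin n → V × ℝ)
        (w : Fin (n + 1) → Fin (n + 1) → V), Clq (m : ℝ) K q w} := by
      rw [Metric.dense_iff]
      intro K r hr
      obtain ⟨K', hd, hn⟩ := H m K r hr
      exact ⟨K', by rw [Metric.mem_ball]; exact hd, hn⟩
    exact residual_of_dense_open (isClosed_hasClq n (m : ℝ)).isOpen_compl hdense
  have h2 := eventually_countable_forall.2 key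
  filter_upwards [h2] with K hK
  rintro ⟨m, q, w, hc⟩
  exact hK m ⟨q, w, hc⟩

/-- The same as `residual_bodies`, as a meagre set. -/
theorem meagre_bodies [FiniteDimensional ℝ V] {n : ℕ}
    (H : ∀ (m : ℕ) (K : ConvexBody V) (ε : ℝ), 0 < ε →
      ∃ K' : ConvexBody V, dist K' K < ε ∧
        ¬ ∃ (q : Fin n → V × ℝ) (w : Fin (n + 1) → Fin (n + 1) → V), Clq (m : ℝ) K' q w) :
    IsMeagre {K : ConvexBody V | ∃ (m : ℕ) (q : Fin n → V × ℝ)
      (w : Fin (n + 1) → Fin (n + 1) → V), Clq (m : ℝ) K q w} :=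
  residual_bodies H

/-- The same as `residual_subtype`, as a meagre set. -/
theorem meagre_subtype [FiniteDimensional ℝ V] {n : ℕ} (S : Set (ConvexBody V))
    (H : ∀ (m : ℕ) (K : ConvexBody V), K ∈ S → ∀ ε : ℝ, 0 < ε →
      ∃ K' ∈ S, dist K' K < ε ∧ ¬ ∃ (q : Fin n → V × ℝ) (w : Fin (n + 1) → Fin (n + 1) → V),
        Clq (m : ℝ) K' q w) :
    IsMeagre {K : S | ∃ (m : ℕ) (q : Fin n → V × ℝ)
      (w : Fin (n + 1) → Fin (n + 1) → V), Clq (m : ℝ) (K : ConvexBody V) q w} :=
  residual_subtype S H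

end Typ
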