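import Pool.Agent.Typ.Supp

/-! Typical bodies (MP_c1e66d_co): strictly convex bodies are dense.  For a convex body `K` and
`e > 0` the body `{x : infDist x K + e |x|^2 ≤ e r^2}` (`r` large) is strictly convex and close
to `K`. -/

open Set Metric Topology
open scoped InnerProductSpace Pointwise NNReal

namespace Typ

variable {V : Type*} [NormedAddCommGroup V] [InnerProductSpace ℝ V]

/-- the strictly convex function -/
noncomputable def phi (K : ConvexBody V) (e : ℝ) (x : V) : ℝ := infDist x (K : Set V) + e * ‖x‖ ^ 2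

theorem phi_continuous (K : ConvexBody V) (e : ℝ) : Continuous (phi K e) := by
  unfold phi
  exact (continuous_infDist_pt _).add (continuous_const.mul (continuous_norm.pow 2))

theorem norm_sq_comb {a b : ℝ} (hab : a + b = 1) (x y : V) :
    ‖a • x + b • y‖ ^ 2 = a * ‖x‖ ^ 2 + b * ‖y‖ ^ 2 - a * b * ‖x - y‖ ^ 2 := by
  have h1 : ‖a • x + b • y‖ ^ 2 = a ^ 2 * ‖x‖ ^ 2 + 2 * (a * b * ⟪x, y⟫_ℝ) + b ^ 2 * ‖y‖ ^ 2 := by
    rw [norm_add_sq_real, norm_smul, norm_smul, real_inner_smul_left, real_inner_smul_right,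
      mul_pow, mul_pow, Real.norm_eq_abs, Real.norm_eq_abs, sq_abs, sq_abs]
    ring
  have h2 : ‖x - y‖ ^ 2 = ‖x‖ ^ 2 - 2 * ⟪x, y⟫_ℝ + ‖y‖ ^ 2 := norm_sub_sq_real x y
  rw [h1, h2]
  have hb : b = 1 - a := by linarith
  rw [hb]
  ring

theorem infDist_comb (K : ConvexBody V) {a b : ℝ} (ha : 0 ≤ a) (hb : 0 ≤ b) (hab : a + b = 1)
    (x y : V) : infDist (a • x + b • y) (K : Set V) ≤
      a * infDist x (K : Set V) + b * infDist y (K : Set V) := by
  obtain ⟨p, hp, hp'⟩ := K.isCompact.exists_infDist_eq_dist K.nonempty x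
  obtain ⟨q, hq, hq'⟩ := K.isCompact.exists_infDist_eq_dist K.nonempty y
  have hpq : a • p + b • q ∈ (K : Set V) := K.convex hp hq ha hb hab
  have h1 := infDist_le_dist_of_mem (x := a • x + b • y) hpq
  rw [hp', hq']
  refine h1.trans ?_
  rw [dist_eq_norm, dist_eq_norm, dist_eq_norm]
  have e : a • x + b • y - (a • p + b • q) = a • (x - p) + b • (y - q) := by
    rw [smul_sub, smul_sub]; abel
  rw [e]
  refine (norm_add_le _ _).trans ?_
  rw [norm_smul, norm_smul, Real.norm_of_nonneg ha, Real.norm_of_nonneg hb]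

theorem phi_comb (K : ConvexBody V) {e : ℝ} {a b : ℝ} (ha : 0 ≤ a) (hb : 0 ≤ b)
    (hab : a + b = 1) (x y : V) :
    phi K e (a • x + b • y) ≤ a * phi K e x + b * phi K e y - e * (a * b * ‖x - y‖ ^ 2) := by
  unfold phi
  rw [norm_sq_comb hab]
  have := infDist_comb K ha hb hab x y
  linarith

theorem phi_sub_bounded (K : ConvexBody V) {e r : ℝ} (he : 0 < e) (hr : 0 ≤ r) {x : V}
    (hx : phi K e x ≤ e * r ^ 2) : ‖x‖ ≤ r := by
  unfold phi at hx
  have h1 : (0 : ℝ) ≤ infDist x (K : Set V) := infDist_nonneg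
  have h2 : e * ‖x‖ ^ 2 ≤ e * r ^ 2 := by linarith
  have h3 : ‖x‖ ^ 2 ≤ r ^ 2 := le_of_mul_le_mul_left h2 he
  exact abs_le_of_sq_le_sq' h3 hr |>.2

/-- the body `{phi ≤ e r^2}` -/
noncomputable def Ks [FiniteDimensional ℝ V] (K : ConvexBody V) {e r : ℝ} (he : 0 < e) (hr : 0 ≤ r)
    (hK : ∀ y ∈ K, ‖y‖ ≤ r) : ConvexBody V where
  carrier := {x | phi K e x ≤ e * r ^ 2}
  convex' := by
    intro x hx y hy a b ha hb hab
    have h1 := phi_comb K (e := e) ha hb hab x y
    have h2 : 0 ≤ e * (a * b * ‖x - y‖ ^ 2) := by positivity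
    have hx' : phi K e x ≤ e * r ^ 2 := hx
    have hy' : phi K e y ≤ e * r ^ 2 := hy
    show phi K e (a • x + b • y) ≤ e * r ^ 2
    have h3 : a * phi K e x ≤ a * (e * r ^ 2) := mul_le_mul_of_nonneg_left hx' ha
    have h4 : b * phi K e y ≤ b * (e * r ^ 2) := mul_le_mul_of_nonneg_left hy' hb
    have h5 : a * (e * r ^ 2) + b * (e * r ^ 2) = e * r ^ 2 := by rw [← add_mul, hab, one_mul]
    linarith
  isCompact' := by
    have : ProperSpace V := FiniteDimensional.proper ℝ V
    refine (isCompact_closedBall (0 : V) r).of_isClosed_subset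
      (isClosed_le (phi_continuous K e) continuous_const) ?_
    intro x hx
    rw [mem_closedBall_zero_iff]
    exact phi_sub_bounded K he hr hx
  nonempty' := by
    obtain ⟨y, hy⟩ := K.nonempty
    refine ⟨y, ?_⟩
    show phi K e y ≤ e * r ^ 2
    unfold phi
    rw [infDist_zero_of_mem hy, zero_add]
    have h1 := hK y hy
    have h2 : ‖y‖ ^ 2 ≤ r ^ 2 := pow_le_pow_left₀ (norm_nonneg y) h1 2
    exact mul_le_mul_of_nonneg_left h2 he.le

theorem mem_Ks [FiniteDimensional ℝ V] (K : ConvexBody V) {e r : ℝ} (he : 0 < e) (hr : 0 ≤ r)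
    (hK : ∀ y ∈ K, ‖y‖ ≤ r) {x : V} : x ∈ Ks K he hr hK ↔ phi K e x ≤ e * r ^ 2 := Iff.rfl

/-- points with `phi < e r^2` are interior -/
theorem interior_Ks [FiniteDimensional ℝ V] (K : ConvexBody V) {e r : ℝ} (he : 0 < e) (hr : 0 ≤ r)
    (hK : ∀ y ∈ K, ‖y‖ ≤ r) {x : V} (hx : phi K e x < e * r ^ 2) :
    x ∈ interior (Ks K he hr hK : Set V) := by
  rw [mem_interior]
  refine ⟨{x | phi K e x < e * r ^ 2}, ?_, isOpen_lt (phi_continuous K e) continuous_const, hx⟩
  intro y hy
  exact (mem_Ks K he hr hK).2 (le_of_lt hy)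

theorem Ks_SC [FiniteDimensional ℝ V] (K : ConvexBody V) {e r : ℝ} (he : 0 < e) (hr : 0 ≤ r)
    (hK : ∀ y ∈ K, ‖y‖ ≤ r) : SC (Ks K he hr hK) := by
  intro w hw a ha b hb hwa hwb
  by_contra hab
  have ha' := (mem_Ks K he hr hK).1 ha
  have hb' := (mem_Ks K he hr hK).1 hb
  have hpos : 0 < ‖a - b‖ := norm_pos_iff.2 (sub_ne_zero.2 hab)
  set c : V := (1 / 2 : ℝ) • a + (1 / 2 : ℝ) • b with hc
  have h1 := phi_comb K (e := e) (a := 1 / 2) (b := 1 / 2) (by norm_num) (by norm_num)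
    (by norm_num) a b
  have h2 : phi K e c < e * r ^ 2 := by
    have h3 : 0 < e * (1 / 2 * (1 / 2) * ‖a - b‖ ^ 2) := by positivity
    rw [← hc] at h1
    linarith
  have h4 := interior_Ks K he hr hK h2
  have hwc : ⟪w, c⟫_ℝ = h (Ks K he hr hK) w := by
    rw [hc, inner_add_right, real_inner_smul_right, real_inner_smul_right, hwa, hwb]
    ring
  have hcont : Continuous (fun t : ℝ => c + t • w) :=
    continuous_const.add (continuous_id.smul continuous_const)
  have h5 : (fun t : ℝ => c + t • w) ⁻¹' (interior (Ks K he hr hK : Set V)) ∈ 𝓝 (0 : ℝ) := by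
    apply hcont.continuousAt.preimage_mem_nhds
    apply isOpen_interior.mem_nhds
    simpa using h4
  rw [Metric.mem_nhds_iff] at h5
  obtain ⟨t, ht, hball⟩ := h5
  have h6 : c + (t / 2) • w ∈ Ks K he hr hK := by
    have : (t / 2) ∈ ball (0 : ℝ) t := by
      rw [mem_ball, dist_zero_right, Real.norm_of_nonneg (by linarith)]
      linarith
    exact interior_subset (hball this)
  have h7 := le_h (Ks K he hr hK) w h6
  rw [inner_add_right, hwc, real_inner_smul_right, real_inner_self_eq_norm_sq, hw] at h7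
  linarith

/-- strictly convex bodies with interior points are dense -/
theorem exists_SC_sym [FiniteDimensional ℝ V] (K : ConvexBody V) {ε : ℝ} (hε : 0 < ε) :
    ∃ K0 : ConvexBody V, dist K0 K < ε ∧ (interior (K0 : Set V)).Nonempty ∧ SC K0 ∧
      ((∀ y ∈ K, -y ∈ K) → ∀ y ∈ K0, -y ∈ K0) := by
  obtain ⟨R, hR, hRK⟩ := exists_bound K
  have hr : (0 : ℝ) < R + 1 := by linarith
  set e : ℝ := ε / (2 * (R + 1) ^ 2) with he'
  have he : 0 < e := by rw [he']; positivity
  have her : e * (R + 1) ^ 2 = ε / 2 := by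
    rw [he']
    field_simp
  have hK : ∀ y ∈ K, ‖y‖ ≤ R + 1 := fun y hy => (hRK y hy).trans (by linarith)
  refine ⟨Ks K he hr.le hK, ?_, ?_, Ks_SC K he hr.le hK, ?_⟩
  · rw [← ConvexBody.hausdorffDist_coe]
    have : hausdorffDist (Ks K he hr.le hK : Set V) (K : Set V) ≤ ε / 2 := by
      apply hausdorffDist_le_of_mem_dist (by linarith)
      · intro x hx
        obtain ⟨p, hp, hp'⟩ := K.isCompact.exists_infDist_eq_dist K.nonempty x
        refine ⟨p, hp, ?_⟩
        have h1 := (mem_Ks K he hr.le hK).1 hx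
        unfold phi at h1
        rw [her, hp'] at h1
        have h2 : 0 ≤ e * ‖x‖ ^ 2 := by positivity
        linarith
      · intro x hx
        refine ⟨x, ?_, by rw [dist_self]; linarith⟩
        apply (mem_Ks K he hr.le hK).2
        unfold phi
        rw [infDist_zero_of_mem hx, zero_add]
        exact mul_le_mul_of_nonneg_left (pow_le_pow_left₀ (norm_nonneg x) (hK x hx) 2) he.le
    linarith
  · obtain ⟨y, hy⟩ := K.nonempty
    refine ⟨y, interior_Ks K he hr.le hK ?_⟩
    unfold phi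
    rw [infDist_zero_of_mem hy, zero_add]
    have h1 : ‖y‖ < R + 1 := (hRK y hy).trans_lt (by linarith)
    have h2 : ‖y‖ ^ 2 < (R + 1) ^ 2 := pow_lt_pow_left₀ h1 (norm_nonneg y) (by norm_num)
    exact mul_lt_mul_of_pos_left h2 he
  · intro hs x hx
    apply (mem_Ks K he hr.le hK).2
    have h1 := (mem_Ks K he hr.le hK).1 hx
    refine le_trans ?_ h1
    unfold phi
    rw [norm_neg]
    have h2 : infDist (-x) (K : Set V) ≤ infDist x (K : Set V) := by
      obtain ⟨p, hp, hp'⟩ := K.isCompact.exists_infDist_eq_dist K.nonempty x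
      rw [hp']
      have h3 := infDist_le_dist_of_mem (x := -x) (hs p hp)
      rwa [dist_neg_neg] at h3
    linarith

theorem exists_SC [FiniteDimensional ℝ V] (K : ConvexBody V) {ε : ℝ} (hε : 0 < ε) :
    ∃ K0 : ConvexBody V, dist K0 K < ε ∧ (interior (K0 : Set V)).Nonempty ∧ SC K0 := by
  obtain ⟨K0, h1, h2, h3, -⟩ := exists_SC_sym K hε
  exact ⟨K0, h1, h2, h3⟩

end Typ
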