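import Pool.Agent.Typ.Supp

open Set Metric Topology
open scoped InnerProductSpace Pointwise NNReal

namespace Typ

variable {V : Type*} [NormedAddCommGroup V] [InnerProductSpace ℝ V]

/-- the unit ball as a convex body -/
def ballBody (V : Type*) [NormedAddCommGroup V] [InnerProductSpace ℝ V] [FiniteDimensional ℝ V] :
    ConvexBody V :=
  ⟨closedBall 0 1, convex_closedBall _ _,
    (haveI := FiniteDimensional.proper ℝ V; isCompact_closedBall _ _), ⟨0, by simp⟩⟩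

/-- the perturbed bodies -/
noncomputable def Kb [FiniteDimensional ℝ V] {f : ℕ} (K0 : ConvexBody V) (C : Fin f → ConvexBody V)
    (β : ℝ) (b : Fin f → ℝ) : ConvexBody V :=
  K0 + ((β - ∑ k, b k) • ballBody V + ∑ k, b k • C k)

theorem mem_ballBody [FiniteDimensional ℝ V] {y : V} : y ∈ ballBody V ↔ ‖y‖ ≤ 1 := by
  show y ∈ closedBall (0:V) 1 ↔ _
  rw [mem_closedBall_zero_iff]

theorem h_ballBody [FiniteDimensional ℝ V] (w : V) : h (ballBody V) w = ‖w‖ := by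
  apply le_antisymm
  · apply h_le
    intro y hy
    rw [mem_ballBody] at hy
    refine (real_inner_le_norm _ _).trans ?_
    exact mul_le_of_le_one_right (norm_nonneg _) hy
  · by_cases hw : w = 0
    · subst hw
      have := le_h (ballBody V) (0:V) (y := 0) (mem_ballBody.2 (by simp))
      simpa using this
    · have hn : ‖w‖ ≠ 0 := norm_ne_zero_iff.2 hw
      have := le_h (ballBody V) w (y := ‖w‖⁻¹ • w) (mem_ballBody.2 (by
        rw [norm_smul, norm_inv, norm_norm, inv_mul_cancel₀ hn]))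
      rw [real_inner_smul_right, real_inner_self_eq_norm_sq] at this
      have h2 : ‖w‖⁻¹ * ‖w‖ ^ 2 = ‖w‖ := by field_simp
      rwa [h2] at this

theorem mem_add_iff {K K' : ConvexBody V} {y : V} :
    y ∈ K + K' ↔ ∃ a ∈ K, ∃ b ∈ K', a + b = y := by
  show y ∈ ((K + K' : ConvexBody V) : Set V) ↔ _
  rw [ConvexBody.coe_add, Set.mem_add]; rfl

theorem mem_smul_iff {K : ConvexBody V} {c : ℝ} {y : V} :
    y ∈ c • K ↔ ∃ a ∈ K, c • a = y := by
  show y ∈ ((c • K : ConvexBody V) : Set V) ↔ _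
  rw [ConvexBody.coe_smul, Set.mem_smul_set]; rfl

theorem mem_zero_iff {y : V} : y ∈ (0 : ConvexBody V) ↔ y = 0 := by
  show y ∈ ((0 : ConvexBody V) : Set V) ↔ _
  rw [ConvexBody.coe_zero, Set.mem_zero]

theorem norm_sum_le {ι : Type*} (s : Finset ι) (F : ι → ConvexBody V) (r : ι → ℝ)
    (H : ∀ i ∈ s, ∀ y ∈ F i, ‖y‖ ≤ r i) : ∀ y ∈ ∑ i ∈ s, F i, ‖y‖ ≤ ∑ i ∈ s, r i := by
  classical
  induction s using Finset.induction_on with
  | empty =>
    intro y hy
    rw [Finset.sum_empty, mem_zero_iff] at hy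
    simp [hy]
  | insert a s ha ih =>
    intro y hy
    rw [Finset.sum_insert ha, mem_add_iff] at hy
    obtain ⟨u, hu, v, hv, rfl⟩ := hy
    rw [Finset.sum_insert ha]
    refine (norm_add_le _ _).trans (add_le_add (H a (Finset.mem_insert_self _ _) u hu) ?_)
    exact ih (fun i hi => H i (Finset.mem_insert_of_mem hi)) v hv

theorem h_Kb [FiniteDimensional ℝ V] {f : ℕ} (K0 : ConvexBody V) (C : Fin f → ConvexBody V)
    {β : ℝ} {b : Fin f → ℝ} (hb : ∀ k, 0 ≤ b k) (hβ : ∑ k, b k ≤ β) (w : V) :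
    h (Kb K0 C β b) w = h K0 w + β * ‖w‖ + ∑ k, b k * (h (C k) w - ‖w‖) := by
  rw [Kb, h_add, h_add, h_smul _ (by linarith), h_ballBody, h_sum]
  have e1 : ∑ k, h (b k • C k) w = ∑ k, b k * h (C k) w :=
    Finset.sum_congr rfl (fun k _ => h_smul _ (hb k) w)
  have e2 : ∑ k, b k * (h (C k) w - ‖w‖) = ∑ k, b k * h (C k) w - (∑ k, b k) * ‖w‖ := by
    rw [Finset.sum_mul, ← Finset.sum_sub_distrib]
    exact Finset.sum_congr rfl (fun k _ => by ring)
  rw [e1, e2]; ring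

theorem norm_pert [FiniteDimensional ℝ V] {f : ℕ} (C : Fin f → ConvexBody V)
    (hC : ∀ k, ∀ y ∈ C k, ‖y‖ ≤ 2) {β : ℝ} {b : Fin f → ℝ} (hb : ∀ k, 0 ≤ b k)
    (hβ : ∑ k, b k ≤ β) : ∀ y ∈ (β - ∑ k, b k) • ballBody V + ∑ k, b k • C k, ‖y‖ ≤ 2 * β := by
  intro y hy
  rw [mem_add_iff] at hy
  obtain ⟨u, hu, v, hv, rfl⟩ := hy
  rw [mem_smul_iff] at hu
  obtain ⟨a, ha, rfl⟩ := hu
  rw [mem_ballBody] at ha
  have h1 : ‖v‖ ≤ ∑ k, b k * 2 := by
    apply norm_sum_le Finset.univ (fun k => b k • C k) (fun k => b k * 2) _ v hv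
    intro k _ y hy
    rw [mem_smul_iff] at hy
    obtain ⟨a, ha, rfl⟩ := hy
    rw [norm_smul, Real.norm_eq_abs, abs_of_nonneg (hb k)]
    exact mul_le_mul_of_nonneg_left (hC k a ha) (hb k)
  have h2 : ‖(β - ∑ k, b k) • a‖ ≤ β - ∑ k, b k := by
    rw [norm_smul, Real.norm_eq_abs, abs_of_nonneg (by linarith)]
    exact mul_le_of_le_one_right (by linarith) ha
  rw [← Finset.sum_mul] at h1
  have h3 : 0 ≤ ∑ k, b k := Finset.sum_nonneg (fun k _ => hb k)
  refine (norm_add_le _ _).trans ?_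
  nlinarith

theorem dist_Kb [FiniteDimensional ℝ V] {f : ℕ} (K0 : ConvexBody V) (C : Fin f → ConvexBody V)
    (hC : ∀ k, ∀ y ∈ C k, ‖y‖ ≤ 2) {β : ℝ} {b : Fin f → ℝ} (hb : ∀ k, 0 ≤ b k)
    (hβ : ∑ k, b k ≤ β) : dist (Kb K0 C β b) K0 ≤ 2 * β := by
  have h3 : 0 ≤ ∑ k, b k := Finset.sum_nonneg (fun k _ => hb k)
  exact dist_add_le _ _ (by linarith) (norm_pert C hC hb hβ)

end Typ
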