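import Pool.Agent.Typ.Cpl
import Pool.Agent.Typ.Fam

open Set Metric Topology
open scoped InnerProductSpace Pointwise NNReal

namespace Typ

variable {V : Type*} [NormedAddCommGroup V] [InnerProductSpace ℝ V]

/-- the class of centrally symmetric bodies (centre 0) -/
def Sy (V : Type*) [NormedAddCommGroup V] [InnerProductSpace ℝ V] : Set (ConvexBody V) :=
  {K | ∀ y ∈ K, -y ∈ K}

theorem near_mem (K K' : ConvexBody V) {y : V} (hy : y ∈ K) : ∃ z ∈ K', dist y z ≤ dist K K' := by
  have h1 : infDist y (K' : Set V) ≤ dist K K' := by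
    rw [← ConvexBody.hausdorffDist_coe]
    exact infDist_le_hausdorffDist_of_mem hy ConvexBody.hausdorffEDist_ne_top
  obtain ⟨z, hz, h2⟩ := K'.isCompact.exists_infDist_eq_dist K'.nonempty y
  exact ⟨z, hz, by rw [← h2]; exact h1⟩

theorem isClosed_Sy : IsClosed (Sy V) := by
  refine isClosed_of_closure_subset ?_
  intro K hK y hy
  rw [Metric.mem_closure_iff] at hK
  have key : ∀ ε : ℝ, 0 < ε → infDist (-y) (K : Set V) ≤ ε := by
    intro ε hε
    obtain ⟨K', hK', hd⟩ := hK (ε / 2) (by positivity)
    obtain ⟨z, hz, h1⟩ := near_mem K K' hy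
    obtain ⟨u, hu, h2⟩ := near_mem K' K (hK' z hz)
    rw [dist_comm] at h2
    have h3 : dist (-y) u ≤ ε := by
      calc dist (-y) u ≤ dist (-y) (-z) + dist (-z) u := dist_triangle _ _ _
        _ ≤ ε := by
          rw [dist_neg_neg, dist_comm (-z) u]
          have : dist K' K = dist K K' := dist_comm _ _
          linarith
    exact (infDist_le_dist_of_mem hu).trans h3
  have h0 : infDist (-y) (K : Set V) = 0 :=
    le_antisymm (le_of_forall_pos_le_add (by simpa using key)) infDist_nonneg
  have h1 : -y ∈ closure (K : Set V) := (mem_closure_iff_infDist_zero K.nonempty).2 h0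
  rwa [K.isClosed.closure_eq] at h1

theorem degenerate_meagre_Sy [FiniteDimensional ℝ V] :
    IsMeagre {K : Sy V | ¬ (interior ((K : ConvexBody V) : Set V)).Nonempty} := by
  have := FiniteDimensional.complete ℝ V
  have hopen : IsOpen {K : Sy V | (interior ((K : ConvexBody V) : Set V)).Nonempty} :=
    (isOpen_solid (E := V)).preimage continuous_subtype_val
  have hdense : Dense {K : Sy V | (interior ((K : ConvexBody V) : Set V)).Nonempty} := by
    rw [Metric.dense_iff]
    intro K r hr
    have hsm : ∀ y ∈ (r / 2) • ballBody V, ‖y‖ ≤ r / 2 := by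
      intro y hy
      rw [mem_smul_iff] at hy
      obtain ⟨a, ha, rfl⟩ := hy
      rw [mem_ballBody] at ha
      rw [norm_smul, Real.norm_eq_abs, abs_of_pos (by positivity)]
      exact mul_le_of_le_one_right (by positivity) ha
    refine ⟨⟨(K : ConvexBody V) + (r / 2) • ballBody V, ?_⟩, ?_, ?_⟩
    · intro y hy
      rw [mem_add_iff] at hy ⊢
      obtain ⟨u, hu, v, hv, rfl⟩ := hy
      refine ⟨-u, K.2 u hu, -v, ?_, by abel⟩
      rw [mem_smul_iff] at hv ⊢
      obtain ⟨a, ha, rfl⟩ := hv
      exact ⟨-a, by rw [mem_ballBody] at ha ⊢; rwa [norm_neg], by rw [smul_neg]⟩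
    · rw [Metric.mem_ball]
      show dist ((K : ConvexBody V) + (r / 2) • ballBody V) (K : ConvexBody V) < r
      exact (dist_add_le _ _ (by positivity) hsm).trans_lt (half_lt_self hr)
    · show (interior (((K : ConvexBody V) + (r / 2) • ballBody V : ConvexBody V) : Set V)).Nonempty
      obtain ⟨a, ha⟩ := (K : ConvexBody V).nonempty
      refine ⟨a, ?_⟩
      rw [mem_interior]
      refine ⟨ball a (r / 2), ?_, isOpen_ball, mem_ball_self (by positivity)⟩
      intro y hy
      rw [mem_ball, dist_eq_norm] at hy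
      show y ∈ (K : ConvexBody V) + (r / 2) • ballBody V
      rw [mem_add_iff]
      refine ⟨a, ha, y - a, ?_, by abel⟩
      rw [mem_smul_iff]
      refine ⟨(r / 2)⁻¹ • (y - a), ?_, by rw [smul_smul, mul_inv_cancel₀ (by positivity), one_smul]⟩
      rw [mem_ballBody, norm_smul, norm_inv, Real.norm_eq_abs, abs_of_pos (by positivity),
        inv_mul_le_iff₀ (by positivity), mul_one]
      exact hy.le
  have := residual_of_dense_open hopen hdense
  rw [IsMeagre]
  filter_upwards [this] with K hK
  simpa using hK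

end Typ
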