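import Pool.Agent.Typ.Supp

/-! Typical bodies (MP_c1e66d_co): bumps.  For a unit vector `v` the body `conv ({(1 + e) v} ∪ B)`. -/

open Set Metric Topology
open scoped InnerProductSpace Pointwise NNReal

namespace Typ

variable {V : Type*} [NormedAddCommGroup V] [InnerProductSpace ℝ V]

/-- the convex hull of a point and the unit ball -/
def cone (p : V) : Set V := convexJoin ℝ {p} (closedBall 0 1)

theorem mem_cone {p y : V} :
    y ∈ cone p ↔ ∃ t ∈ Icc (0 : ℝ) 1, ∃ z ∈ closedBall (0 : V) 1, (1 - t) • p + t • z = y := by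
  unfold cone
  rw [mem_convexJoin]
  constructor
  · rintro ⟨a, ha, b, hb, hy⟩
    rw [mem_singleton_iff] at ha
    subst ha
    rw [segment_eq_image] at hy
    obtain ⟨t, ht, rfl⟩ := hy
    exact ⟨t, ht, b, hb, rfl⟩
  · rintro ⟨t, ht, z, hz, rfl⟩
    refine ⟨p, rfl, z, hz, ?_⟩
    rw [segment_eq_image]
    exact ⟨t, ht, rfl⟩

theorem cone_compact [FiniteDimensional ℝ V] (p : V) : IsCompact (cone p) := by
  have : ProperSpace V := FiniteDimensional.proper ℝ V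
  have h1 : cone p = (fun q : ℝ × V => (1 - q.1) • p + q.1 • q.2) ''
      (Icc (0 : ℝ) 1 ×ˢ closedBall (0 : V) 1) := by
    ext y
    rw [mem_cone]
    constructor
    · rintro ⟨t, ht, z, hz, rfl⟩
      exact ⟨(t, z), ⟨ht, hz⟩, rfl⟩
    · rintro ⟨⟨t, z⟩, ⟨ht, hz⟩, rfl⟩
      exact ⟨t, ht, z, hz, rfl⟩
  rw [h1]
  exact (isCompact_Icc.prod (isCompact_closedBall _ _)).image (by fun_prop)

/-- the body -/
def coneBody [FiniteDimensional ℝ V] (p : V) : ConvexBody V where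
  carrier := cone p
  convex' := (convex_singleton p).convexJoin (convex_closedBall _ _)
  isCompact' := cone_compact p
  nonempty' := ⟨p, mem_cone.2 ⟨0, ⟨le_rfl, zero_le_one⟩, 0, by simp, by simp⟩⟩

theorem mem_coneBody [FiniteDimensional ℝ V] {p y : V} : y ∈ coneBody p ↔ y ∈ cone p := Iff.rfl

theorem exists_bumps [FiniteDimensional ℝ V] {δ : ℝ} (hδ : 0 < δ) :
    ∃ (f : ℕ) (C : Fin f → ConvexBody V), (∀ k, ∀ y ∈ C k, ‖y‖ ≤ 2) ∧
      (∀ k w, ‖w‖ ≤ h (C k) w) ∧ (∀ w : V, ‖w‖ = 1 → ∃ k, 1 < h (C k) w) ∧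
      (∀ k, ∀ w w' : V, ‖w‖ = 1 → ‖w'‖ = 1 → 1 < h (C k) w → 1 < h (C k) w' → ‖w - w'‖ < δ) := by
  have : ProperSpace V := FiniteDimensional.proper ℝ V
  set e : ℝ := min 1 (δ ^ 2 / 16) with he
  have he0 : 0 < e := by rw [he]; positivity
  have he1 : e ≤ 1 := min_le_left _ _
  have he2 : e ≤ δ ^ 2 / 16 := min_le_right _ _
  -- finite subcover of the sphere
  have hK : IsCompact (sphere (0 : V) 1) := isCompact_sphere _ _
  obtain ⟨T, hT1, hT2⟩ := hK.elim_nhds_subcover (fun v => {w : V | 1 < (1 + e) * ⟪w, v⟫_ℝ})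
    (by
      intro v hv
      apply IsOpen.mem_nhds
      · exact isOpen_lt continuous_const (by fun_prop)
      · show 1 < (1 + e) * ⟪v, v⟫_ℝ
        rw [mem_sphere_zero_iff_norm] at hv
        rw [real_inner_self_eq_norm_sq, hv]
        linarith)
  have hTn : ∀ k : Fin T.card, ‖((T.equivFin.symm k : T) : V)‖ = 1 := by
    intro k
    exact mem_sphere_zero_iff_norm.1 (hT1 _ (T.equivFin.symm k).2)
  have key : ∀ v w : V, ‖v‖ = 1 → ‖w‖ = 1 → 1 < h (coneBody ((1 + e) • v)) w → ‖w - v‖ < δ / 2 := by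
    intro v w hv hw h1
    have h2 : 1 < (1 + e) * ⟪w, v⟫_ℝ := by
      obtain ⟨y, hy, h3⟩ := exists_h (coneBody ((1 + e) • v)) w
      rw [mem_coneBody, mem_cone] at hy
      obtain ⟨t, ⟨ht0, ht1⟩, z, hz, rfl⟩ := hy
      rw [← h3, inner_add_right, real_inner_smul_right, real_inner_smul_right,
        real_inner_smul_right] at h1
      have hz' : ⟪w, z⟫_ℝ ≤ 1 := by
        have h5 := real_inner_le_norm w z
        have h6 : ‖z‖ ≤ 1 := by simpa using hz
        rw [hw, one_mul] at h5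
        linarith
      by_contra hcon
      push Not at hcon
      nlinarith
    have h3 : ‖w - v‖ ^ 2 = 2 - 2 * ⟪w, v⟫_ℝ := by
      rw [norm_sub_sq_real, hv, hw]; ring
    have h4 : 1 - e < ⟪w, v⟫_ℝ := by nlinarith
    have h5 : ‖w - v‖ ^ 2 < (δ / 2) ^ 2 := by
      rw [h3]; nlinarith
    exact lt_of_pow_lt_pow_left₀ 2 (by positivity) h5
  refine ⟨T.card, fun k => coneBody ((1 + e) • ((T.equivFin.symm k : T) : V)), ?_, ?_, ?_, ?_⟩
  · intro k y hy
    rw [mem_coneBody, mem_cone] at hy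
    obtain ⟨t, ⟨ht0, ht1⟩, z, hz, rfl⟩ := hy
    have h6 : ‖z‖ ≤ 1 := by simpa using hz
    refine (norm_add_le _ _).trans ?_
    rw [norm_smul, norm_smul, norm_smul, hTn k, Real.norm_of_nonneg (by linarith),
      Real.norm_of_nonneg ht0, Real.norm_of_nonneg (by linarith)]
    nlinarith
  · intro k w
    by_cases hw : w = 0
    · subst hw
      have h7 : (((T.equivFin.symm k : T) : V)) ∈ coneBody ((1 + e) • ((T.equivFin.symm k : T) : V)) := by
        rw [mem_coneBody, mem_cone]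
        exact ⟨1, ⟨zero_le_one, le_rfl⟩, ((T.equivFin.symm k : T) : V),
          mem_closedBall_zero_iff.2 (hTn k).le, by simp⟩
      have h8 := le_h (coneBody ((1 + e) • ((T.equivFin.symm k : T) : V))) 0 h7
      rw [inner_zero_left] at h8
      rw [norm_zero]
      exact h8
    · have hwn : ‖w‖ ≠ 0 := norm_ne_zero_iff.2 hw
      have h7 : (‖w‖⁻¹ • w) ∈ coneBody ((1 + e) • ((T.equivFin.symm k : T) : V)) := by
        rw [mem_coneBody, mem_cone]
        refine ⟨1, ⟨zero_le_one, le_rfl⟩, ‖w‖⁻¹ • w, ?_, by simp⟩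
        rw [mem_closedBall_zero_iff, norm_smul, norm_inv, norm_norm, inv_mul_cancel₀ hwn]
      have h8 := le_h (coneBody ((1 + e) • ((T.equivFin.symm k : T) : V))) w h7
      rw [real_inner_smul_right, real_inner_self_eq_norm_sq] at h8
      have h9 : ‖w‖⁻¹ * ‖w‖ ^ 2 = ‖w‖ := by field_simp
      rw [h9] at h8
      exact h8
  · intro w hw
    have hw' : w ∈ sphere (0 : V) 1 := mem_sphere_zero_iff_norm.2 hw
    have h1 := hT2 hw'
    rw [mem_iUnion₂] at h1
    obtain ⟨v, hv, h2⟩ := h1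
    refine ⟨T.equivFin ⟨v, hv⟩, ?_⟩
    show 1 < h (coneBody ((1 + e) • ((T.equivFin.symm (T.equivFin ⟨v, hv⟩) : T) : V))) w
    rw [Equiv.symm_apply_apply]
    have h3 : ((1 + e) • v) ∈ coneBody ((1 + e) • v) := by
      rw [mem_coneBody, mem_cone]
      exact ⟨0, ⟨le_rfl, zero_le_one⟩, 0, by simp, by simp⟩
    have h4 := le_h (coneBody ((1 + e) • v)) w h3
    rw [real_inner_smul_right] at h4
    exact lt_of_lt_of_le h2 h4
  · intro k w w' hw hw' h1 h2
    have h3 := key _ w (hTn k) hw h1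
    have h4 := key _ w' (hTn k) hw' h2
    have h5 : w - w' = (w - ((T.equivFin.symm k : T) : V)) - (w' - ((T.equivFin.symm k : T) : V)) := by
      abel
    rw [h5]
    refine (norm_sub_le _ _).trans_lt ?_
    linarith

/-- the symmetric body: convex hull of `p`, `-p` and the unit ball -/
def cone2 (p : V) : Set V := convexJoin ℝ (segment ℝ (-p) p) (closedBall 0 1)

theorem mem_cone2 {p y : V} :
    y ∈ cone2 p ↔ ∃ s ∈ Icc (-1 : ℝ) 1, ∃ t ∈ Icc (0 : ℝ) 1, ∃ z ∈ closedBall (0 : V) 1,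
      (1 - t) • (s • p) + t • z = y := by
  unfold cone2
  rw [mem_convexJoin]
  constructor
  · rintro ⟨a, ha, b, hb, hy⟩
    rw [segment_eq_image] at ha hy
    obtain ⟨r, hr, rfl⟩ := ha
    obtain ⟨t, ht, rfl⟩ := hy
    refine ⟨2 * r - 1, ⟨by linarith [hr.1], by linarith [hr.2]⟩, t, ht, b, hb, ?_⟩
    dsimp only
    congr 2
    module
  · rintro ⟨s, hs, t, ht, z, hz, rfl⟩
    refine ⟨s • p, ?_, z, hz, ?_⟩
    · rw [segment_eq_image]
      refine ⟨(s + 1) / 2, ⟨by linarith [hs.1], by linarith [hs.2]⟩, ?_⟩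
      dsimp only
      module
    · rw [segment_eq_image]
      exact ⟨t, ht, rfl⟩

theorem cone2_compact [FiniteDimensional ℝ V] (p : V) : IsCompact (cone2 p) := by
  have : ProperSpace V := FiniteDimensional.proper ℝ V
  have h1 : cone2 p = (fun q : ℝ × ℝ × V => (1 - q.2.1) • (q.1 • p) + q.2.1 • q.2.2) ''
      (Icc (-1 : ℝ) 1 ×ˢ (Icc (0 : ℝ) 1 ×ˢ closedBall (0 : V) 1)) := by
    ext y
    rw [mem_cone2]
    constructor
    · rintro ⟨s, hs, t, ht, z, hz, rfl⟩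
      exact ⟨(s, t, z), ⟨hs, ht, hz⟩, rfl⟩
    · rintro ⟨⟨s, t, z⟩, ⟨hs, ht, hz⟩, rfl⟩
      exact ⟨s, hs, t, ht, z, hz, rfl⟩
  rw [h1]
  exact (isCompact_Icc.prod (isCompact_Icc.prod (isCompact_closedBall _ _))).image (by fun_prop)

/-- the symmetric body -/
def coneBody2 [FiniteDimensional ℝ V] (p : V) : ConvexBody V where
  carrier := cone2 p
  convex' := (convex_segment _ _).convexJoin (convex_closedBall _ _)
  isCompact' := cone2_compact p
  nonempty' := ⟨p, mem_cone2.2 ⟨1, ⟨by norm_num, le_rfl⟩, 0, ⟨le_rfl, zero_le_one⟩, 0, by simp, by simp⟩⟩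

theorem mem_coneBody2 [FiniteDimensional ℝ V] {p y : V} : y ∈ coneBody2 p ↔ y ∈ cone2 p := Iff.rfl

theorem exists_bumps_sym [FiniteDimensional ℝ V] {δ : ℝ} (hδ : 0 < δ) :
    ∃ (f : ℕ) (C : Fin f → ConvexBody V), (∀ k, ∀ y ∈ C k, -y ∈ C k) ∧ (∀ k, ∀ y ∈ C k, ‖y‖ ≤ 2) ∧
      (∀ k w, ‖w‖ ≤ h (C k) w) ∧ (∀ w : V, ‖w‖ = 1 → ∃ k, 1 < h (C k) w) ∧
      (∀ k, ∀ w w' : V, ‖w‖ = 1 → ‖w'‖ = 1 → 1 < h (C k) w → 1 < h (C k) w' →
        ‖w - w'‖ < δ ∨ ‖w + w'‖ < δ) := by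
  have : ProperSpace V := FiniteDimensional.proper ℝ V
  set e : ℝ := min 1 (δ ^ 2 / 16) with he
  have he0 : 0 < e := by rw [he]; positivity
  have he1 : e ≤ 1 := min_le_left _ _
  have he2 : e ≤ δ ^ 2 / 16 := min_le_right _ _
  have hK : IsCompact (sphere (0 : V) 1) := isCompact_sphere _ _
  obtain ⟨T, hT1, hT2⟩ := hK.elim_nhds_subcover (fun v => {w : V | 1 < (1 + e) * ⟪w, v⟫_ℝ})
    (by
      intro v hv
      apply IsOpen.mem_nhds
      · exact isOpen_lt continuous_const (by fun_prop)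
      · show 1 < (1 + e) * ⟪v, v⟫_ℝ
        rw [mem_sphere_zero_iff_norm] at hv
        rw [real_inner_self_eq_norm_sq, hv]
        linarith)
  have hTn : ∀ k : Fin T.card, ‖((T.equivFin.symm k : T) : V)‖ = 1 := by
    intro k
    exact mem_sphere_zero_iff_norm.1 (hT1 _ (T.equivFin.symm k).2)
  have key0 : ∀ v w : V, ‖v‖ = 1 → ‖w‖ = 1 → 1 < (1 + e) * ⟪w, v⟫_ℝ → ‖w - v‖ < δ / 2 := by
    intro v w hv hw h2
    have h3 : ‖w - v‖ ^ 2 = 2 - 2 * ⟪w, v⟫_ℝ := by
      rw [norm_sub_sq_real, hv, hw]; ring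
    have h4 : 1 - e < ⟪w, v⟫_ℝ := by nlinarith
    have h5 : ‖w - v‖ ^ 2 < (δ / 2) ^ 2 := by
      rw [h3]; nlinarith
    exact lt_of_pow_lt_pow_left₀ 2 (by positivity) h5
  have key : ∀ v w : V, ‖v‖ = 1 → ‖w‖ = 1 → 1 < h (coneBody2 ((1 + e) • v)) w →
      ‖w - v‖ < δ / 2 ∨ ‖w + v‖ < δ / 2 := by
    intro v w hv hw h1
    have h2 : 1 < (1 + e) * |⟪w, v⟫_ℝ| := by
      obtain ⟨y, hy, h3⟩ := exists_h (coneBody2 ((1 + e) • v)) w
      rw [mem_coneBody2, mem_cone2] at hy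
      obtain ⟨s, ⟨hs0, hs1⟩, t, ⟨ht0, ht1⟩, z, hz, rfl⟩ := hy
      rw [← h3, inner_add_right, real_inner_smul_right, real_inner_smul_right,
        real_inner_smul_right, real_inner_smul_right] at h1
      have hz' : ⟪w, z⟫_ℝ ≤ 1 := by
        have h5 := real_inner_le_norm w z
        have h6 : ‖z‖ ≤ 1 := by simpa using hz
        rw [hw, one_mul] at h5
        linarith
      have hs : s * ((1 + e) * ⟪w, v⟫_ℝ) ≤ (1 + e) * |⟪w, v⟫_ℝ| := by
        refine (le_abs_self _).trans ?_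
        rw [abs_mul, abs_mul, abs_of_pos (show (0 : ℝ) < 1 + e by linarith)]
        have h7 : |s| ≤ 1 := abs_le.2 ⟨hs0, hs1⟩
        have h8 : 0 ≤ (1 + e) * |⟪w, v⟫_ℝ| := by positivity
        nlinarith [abs_nonneg s]
      by_contra hcon
      push Not at hcon
      have h9 : (1 - t) * (s * ((1 + e) * ⟪w, v⟫_ℝ)) ≤ (1 - t) * 1 :=
        mul_le_mul_of_nonneg_left (hs.trans hcon) (by linarith)
      have h10 : t * ⟪w, z⟫_ℝ ≤ t * 1 := mul_le_mul_of_nonneg_left hz' ht0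
      linarith
    rcases abs_cases ⟪w, v⟫_ℝ with ⟨h3, _⟩ | ⟨h3, _⟩
    · rw [h3] at h2
      exact Or.inl (key0 v w hv hw h2)
    · rw [h3, ← inner_neg_right] at h2
      have := key0 (-v) w (by rw [norm_neg, hv]) hw h2
      rw [sub_neg_eq_add] at this
      exact Or.inr this
  refine ⟨T.card, fun k => coneBody2 ((1 + e) • ((T.equivFin.symm k : T) : V)), ?_, ?_, ?_, ?_, ?_⟩
  · intro k y hy
    rw [mem_coneBody2, mem_cone2] at hy ⊢
    obtain ⟨s, ⟨hs0, hs1⟩, t, ht, z, hz, rfl⟩ := hy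
    refine ⟨-s, ⟨by linarith, by linarith⟩, t, ht, -z, by simpa using hz, ?_⟩
    module
  · intro k y hy
    rw [mem_coneBody2, mem_cone2] at hy
    obtain ⟨s, ⟨hs0, hs1⟩, t, ⟨ht0, ht1⟩, z, hz, rfl⟩ := hy
    have h6 : ‖z‖ ≤ 1 := by simpa using hz
    refine (norm_add_le _ _).trans ?_
    rw [norm_smul, norm_smul, norm_smul, norm_smul, hTn k, Real.norm_of_nonneg (by linarith),
      Real.norm_of_nonneg ht0, Real.norm_of_nonneg (show (0 : ℝ) ≤ 1 + e by linarith), Real.norm_eq_abs]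
    have h7 : |s| ≤ 1 := abs_le.2 ⟨hs0, hs1⟩
    have h8 : |s| * ((1 + e) * 1) ≤ 2 := by nlinarith [abs_nonneg s]
    have h9 : (1 - t) * (|s| * ((1 + e) * 1)) ≤ (1 - t) * 2 := mul_le_mul_of_nonneg_left h8 (by linarith)
    have h10 : t * ‖z‖ ≤ t * 1 := mul_le_mul_of_nonneg_left h6 ht0
    linarith
  · intro k w
    by_cases hw : w = 0
    · subst hw
      have h7 : (((T.equivFin.symm k : T) : V)) ∈ coneBody2 ((1 + e) • ((T.equivFin.symm k : T) : V)) := by
        rw [mem_coneBody2, mem_cone2]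
        exact ⟨1, ⟨by norm_num, le_rfl⟩, 1, ⟨zero_le_one, le_rfl⟩, ((T.equivFin.symm k : T) : V),
          mem_closedBall_zero_iff.2 (hTn k).le, by simp⟩
      have h8 := le_h (coneBody2 ((1 + e) • ((T.equivFin.symm k : T) : V))) 0 h7
      rw [inner_zero_left] at h8
      rw [norm_zero]
      exact h8
    · have hwn : ‖w‖ ≠ 0 := norm_ne_zero_iff.2 hw
      have h7 : (‖w‖⁻¹ • w) ∈ coneBody2 ((1 + e) • ((T.equivFin.symm k : T) : V)) := by
        rw [mem_coneBody2, mem_cone2]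
        refine ⟨1, ⟨by norm_num, le_rfl⟩, 1, ⟨zero_le_one, le_rfl⟩, ‖w‖⁻¹ • w, ?_, by simp⟩
        rw [mem_closedBall_zero_iff, norm_smul, norm_inv, norm_norm, inv_mul_cancel₀ hwn]
      have h8 := le_h (coneBody2 ((1 + e) • ((T.equivFin.symm k : T) : V))) w h7
      rw [real_inner_smul_right, real_inner_self_eq_norm_sq] at h8
      have h9 : ‖w‖⁻¹ * ‖w‖ ^ 2 = ‖w‖ := by field_simp
      rw [h9] at h8
      exact h8
  · intro w hw
    have hw' : w ∈ sphere (0 : V) 1 := mem_sphere_zero_iff_norm.2 hw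
    have h1 := hT2 hw'
    rw [mem_iUnion₂] at h1
    obtain ⟨v, hv, h2⟩ := h1
    refine ⟨T.equivFin ⟨v, hv⟩, ?_⟩
    show 1 < h (coneBody2 ((1 + e) • ((T.equivFin.symm (T.equivFin ⟨v, hv⟩) : T) : V))) w
    rw [Equiv.symm_apply_apply]
    have h3 : ((1 + e) • v) ∈ coneBody2 ((1 + e) • v) := by
      rw [mem_coneBody2, mem_cone2]
      exact ⟨1, ⟨by norm_num, le_rfl⟩, 0, ⟨le_rfl, zero_le_one⟩, 0, by simp, by simp⟩
    have h4 := le_h (coneBody2 ((1 + e) • v)) w h3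
    rw [real_inner_smul_right] at h4
    exact lt_of_lt_of_le h2 h4
  · intro k w w' hw hw' h1 h2
    set v : V := ((T.equivFin.symm k : T) : V) with hv
    have tri : ∀ a b c : V, ‖a - c‖ < δ / 2 → ‖b - c‖ < δ / 2 → ‖a - b‖ < δ := by
      intro a b c ha hb
      have h5 : a - b = (a - c) - (b - c) := by abel
      rw [h5]
      refine (norm_sub_le _ _).trans_lt ?_
      linarith
    rcases key v w (hTn k) hw h1 with h3 | h3 <;> rcases key v w' (hTn k) hw' h2 with h4 | h4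
    · exact Or.inl (tri w w' v h3 h4)
    · right
      have := tri w (-w') v h3 (by
        rw [show -w' - v = -(w' + v) by abel, norm_neg]; exact h4)
      rwa [sub_neg_eq_add] at this
    · right
      have := tri w (-w') (-v) (by rwa [sub_neg_eq_add]) (by
        rw [show -w' - -v = -(w' - v) by abel, norm_neg]; exact h4)
      rwa [sub_neg_eq_add] at this
    · left
      exact tri w w' (-v) (by rwa [sub_neg_eq_add]) (by rwa [sub_neg_eq_add])

end Typ
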