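import Pool.Agent.Typ.Supp

/-! Typical bodies (MP_c1e66d_co), M1: clique data form a closed set, and so do the bodies which have
clique data in a closed set. -/

open Set Metric Topology
open scoped InnerProductSpace Pointwise NNReal

namespace Typ

variable {V : Type*} [NormedAddCommGroup V] [InnerProductSpace ℝ V]

omit [InnerProductSpace ℝ V] in
private theorem continuous_X {n : ℕ} (i : Fin (n + 1)) :
    Continuous (fun q : Fin n → V × ℝ => X q i) := by
  refine Fin.cases ?_ (fun i => ?_) i
  · exact continuous_const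
  · exact (continuous_apply i).fst

omit [InnerProductSpace ℝ V] in
private theorem continuous_L {n : ℕ} (i : Fin (n + 1)) :
    Continuous (fun q : Fin n → V × ℝ => L q i) := by
  refine Fin.cases ?_ (fun i => ?_) i
  · exact continuous_const
  · exact (continuous_apply i).snd

theorem clq_closed {n : ℕ} (m : ℝ) :
    IsClosed {p : ConvexBody V × ((Fin n → V × ℝ) × (Fin (n + 1) → Fin (n + 1) → V)) |
      Clq m p.1 p.2.1 p.2.2} := by
  have cX : ∀ i, Continuous (fun p : ConvexBody V × ((Fin n → V × ℝ) ×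
      (Fin (n + 1) → Fin (n + 1) → V)) => X p.2.1 i) := fun i =>
    (continuous_X i).comp continuous_snd.fst
  have cL : ∀ i, Continuous (fun p : ConvexBody V × ((Fin n → V × ℝ) ×
      (Fin (n + 1) → Fin (n + 1) → V)) => L p.2.1 i) := fun i =>
    (continuous_L i).comp continuous_snd.fst
  have cw : ∀ i j, Continuous (fun p : ConvexBody V × ((Fin n → V × ℝ) ×
      (Fin (n + 1) → Fin (n + 1) → V)) => p.2.2 i j) := fun i j =>
    (continuous_apply j).comp ((continuous_apply i).comp continuous_snd.snd)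
  have ch : ∀ i j, Continuous (fun p : ConvexBody V × ((Fin n → V × ℝ) ×
      (Fin (n + 1) → Fin (n + 1) → V)) => h p.1 (p.2.2 i j)) := fun i j =>
    continuous_h.comp (continuous_fst.prodMk (cw i j))
  have ch' : ∀ i j, Continuous (fun p : ConvexBody V × ((Fin n → V × ℝ) ×
      (Fin (n + 1) → Fin (n + 1) → V)) => h p.1 (-(p.2.2 i j))) := fun i j =>
    continuous_h.comp (continuous_fst.prodMk (cw i j).neg)
  have cv : ∀ v : V, Continuous (fun p : ConvexBody V × ((Fin n → V × ℝ) ×
      (Fin (n + 1) → Fin (n + 1) → V)) => h p.1 v) := fun v =>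
    continuous_h.comp (continuous_fst.prodMk continuous_const)
  simp only [Clq, Set.ofPred_and, Set.ofPred_forall]
  refine IsClosed.inter (isClosed_iInter fun i => isClosed_le (cX i).norm continuous_const) ?_
  refine IsClosed.inter (isClosed_iInter fun i =>
    (isClosed_le continuous_const (cL i)).inter (isClosed_le (cL i) continuous_const)) ?_
  refine IsClosed.inter (isClosed_iInter fun i => isClosed_eq (cw i i) continuous_const) ?_
  refine IsClosed.inter (isClosed_iInter fun i => isClosed_iInter fun j => isClosed_iInter fun _ =>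
    isClosed_eq (cw i j).norm continuous_const) ?_
  refine IsClosed.inter (isClosed_iInter fun i => isClosed_iInter fun j =>
    isClosed_eq (cw j i) (cw i j).neg) ?_
  refine IsClosed.inter (isClosed_iInter fun i => isClosed_iInter fun j => isClosed_iInter fun _ =>
    isClosed_eq ((cw i j).inner ((cX i).sub (cX j)))
      (((cL j).mul (ch i j)).add ((cL i).mul (ch' i j)))) ?_
  exact isClosed_iInter fun i => isClosed_iInter fun j => isClosed_iInter fun v =>
    isClosed_iInter fun _ =>
      isClosed_le (continuous_const.inner ((cX i).sub (cX j)))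
        (((cL j).mul (cv v)).add ((cL i).mul (cv (-v))))

/-- clique data are bounded in terms of `m` -/
theorem clq_bound {n : ℕ} {m : ℝ} {K : ConvexBody V} {q : Fin n → V × ℝ}
    {w : Fin (n + 1) → Fin (n + 1) → V} (hC : Clq m K q w) :
    (q, w) ∈ closedBall (0 : (Fin n → V × ℝ) × (Fin (n + 1) → Fin (n + 1) → V))
      (|m| + |m⁻¹| + 1) := by
  obtain ⟨h1, h2, h3, h4, -⟩ := hC
  have hR : 0 ≤ |m| + |m⁻¹| + 1 := by positivity
  have e1 := le_abs_self m
  have e2 := neg_abs_le m⁻¹
  have e3 := abs_nonneg m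
  have e4 := abs_nonneg m⁻¹
  rw [mem_closedBall_zero_iff, Prod.norm_def, max_le_iff]
  constructor
  · rw [pi_norm_le_iff_of_nonneg hR]
    intro i
    rw [Prod.norm_def, max_le_iff]
    constructor
    · have h5 : ‖(q i).1‖ ≤ m := h1 i.succ
      linarith
    · have h5 : m⁻¹ ≤ (q i).2 ∧ (q i).2 ≤ m := h2 i.succ
      rw [Real.norm_eq_abs, abs_le]
      constructor <;> linarith [h5.1, h5.2]
  · rw [pi_norm_le_iff_of_nonneg hR]
    intro i
    rw [pi_norm_le_iff_of_nonneg hR]
    intro j
    by_cases hij : i = j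
    · subst hij
      show ‖w i i‖ ≤ _
      rw [h3 i, norm_zero]
      exact hR
    · show ‖w i j‖ ≤ _
      rw [h4 i j hij]
      linarith

theorem clq_proj [FiniteDimensional ℝ V] {n : ℕ} (m : ℝ)
    (Z : Set ((Fin n → V × ℝ) × (Fin (n + 1) → Fin (n + 1) → V))) (hZ : IsClosed Z) :
    IsClosed {K : ConvexBody V | ∃ q w, (q, w) ∈ Z ∧ Clq m K q w} := by
  have hp : ProperSpace ((Fin n → V × ℝ) × (Fin (n + 1) → Fin (n + 1) → V)) :=
    FiniteDimensional.proper_real _
  rw [← isSeqClosed_iff_isClosed]
  intro u K hu hK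
  have hu' : ∀ k, ∃ p : (Fin n → V × ℝ) × (Fin (n + 1) → Fin (n + 1) → V),
      p ∈ Z ∧ Clq m (u k) p.1 p.2 := fun k => by
    obtain ⟨q, w, h1, h2⟩ := hu k
    exact ⟨(q, w), h1, h2⟩
  choose p hpZ hpC using hu'
  obtain ⟨a, -, φ, hφ, ha⟩ := (isCompact_closedBall
    (0 : (Fin n → V × ℝ) × (Fin (n + 1) → Fin (n + 1) → V)) (|m| + |m⁻¹| + 1)).tendsto_subseq
    (x := p) (fun k => clq_bound (hpC k))
  refine ⟨a.1, a.2, hZ.mem_of_tendsto ha (Filter.Eventually.of_forall fun k => hpZ (φ k)), ?_⟩
  have h1 : Filter.Tendsto (fun k => (u (φ k), p (φ k))) Filter.atTop (𝓝 (K, a)) :=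
    (hK.comp hφ.tendsto_atTop).prodMk_nhds ha
  exact (clq_closed (V := V) (n := n) m).mem_of_tendsto h1
    (Filter.Eventually.of_forall fun k => hpC (φ k))

end Typ
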