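import Mathlib

/-!
# The space of convex bodies is complete; bodies without interior are nowhere dense
-/

set_option autoImplicit false

open Set Metric TopologicalSpace Filter Topology

namespace Typ

section

variable {V : Type*} [NormedAddCommGroup V] [NormedSpace ℝ V]

private theorem cpl_near {A B : Set V} (hA : A.Nonempty) (hAb : Bornology.IsBounded A)
    (hB : B.Nonempty) (hBb : Bornology.IsBounded B) {r : ℝ} (h : hausdorffDist A B < r) {x : V}
    (hx : x ∈ A) : ∃ y ∈ B, dist x y < r :=
  exists_dist_lt_of_hausdorffDist_lt hx h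
    (hausdorffEDist_ne_top_of_nonempty_of_bounded hA hB hAb hBb)

/-- Nonempty compact convex sets are closed in the nonempty compact sets. -/
theorem isClosed_convexCompacts :
    IsClosed {K : NonemptyCompacts V | Convex ℝ (K : Set V)} := by
  refine isClosed_of_closure_subset fun K hK => ?_
  rw [Metric.mem_closure_iff] at hK
  intro x hx y hy a b ha hb hab
  have hKc : IsClosed (K : Set V) := K.isCompact.isClosed
  rw [← hKc.closure_eq, Metric.mem_closure_iff]
  intro ε hε
  obtain ⟨L, hL, hd⟩ := hK (ε / 2) (by linarith)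
  have hd' : hausdorffDist (K : Set V) L < ε / 2 := hd
  have hd2 : hausdorffDist (L : Set V) K < ε / 2 := by rwa [hausdorffDist_comm]
  have bK : Bornology.IsBounded (K : Set V) := K.isCompact.isBounded
  have bL : Bornology.IsBounded (L : Set V) := L.isCompact.isBounded
  obtain ⟨x', hx', h1⟩ := cpl_near K.nonempty bK L.nonempty bL hd' hx
  obtain ⟨y', hy', h2⟩ := cpl_near K.nonempty bK L.nonempty bL hd' hy
  have hL' : Convex ℝ (L : Set V) := hL
  have h3 : a • x' + b • y' ∈ (L : Set V) := hL' hx' hy' ha hb hab
  obtain ⟨z, hz, h4⟩ := cpl_near L.nonempty bL K.nonempty bK hd2 h3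
  refine ⟨z, hz, ?_⟩
  have h5 : dist (a • x + b • y) (a • x' + b • y') ≤ ε / 2 := by
    calc dist (a • x + b • y) (a • x' + b • y') ≤ dist (a • x) (a • x') + dist (b • y) (b • y') :=
          dist_add_add_le _ _ _ _
      _ = a * dist x x' + b * dist y y' := by
          rw [dist_smul₀, dist_smul₀, Real.norm_of_nonneg ha, Real.norm_of_nonneg hb]
      _ ≤ a * (ε / 2) + b * (ε / 2) :=
          add_le_add (mul_le_mul_of_nonneg_left h1.le ha) (mul_le_mul_of_nonneg_left h2.le hb)
      _ = ε / 2 := by rw [← add_mul, hab, one_mul]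
  linarith [dist_triangle (a • x + b • y) (a • x' + b • y') z]

/-- A convex body as a nonempty compact set. -/
def toNC (K : ConvexBody V) : NonemptyCompacts V := ⟨⟨K, K.isCompact⟩, K.nonempty⟩

theorem isometry_toNC : Isometry (toNC : ConvexBody V → NonemptyCompacts V) :=
  Isometry.of_dist_eq fun _ _ => rfl

theorem range_toNC : range (toNC : ConvexBody V → NonemptyCompacts V) =
    {K : NonemptyCompacts V | Convex ℝ (K : Set V)} := by
  ext K
  constructor
  · rintro ⟨L, rfl⟩
    exact L.convex
  · intro hK
    exact ⟨⟨K, hK, K.isCompact, K.nonempty⟩, rfl⟩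

theorem completeSpace_convexBody [CompleteSpace V] : CompleteSpace (ConvexBody V) := by
  have h : IsClosed (range (toNC : ConvexBody V → NonemptyCompacts V)) := by
    rw [range_toNC]
    exact isClosed_convexCompacts
  exact (completeSpace_iff_isComplete_range (isometry_toNC (V := V)).isUniformInducing).2
    h.isComplete

end

section

variable {E : Type*} [NormedAddCommGroup E] [InnerProductSpace ℝ E]

/-- A convex body near a body which contains a ball contains a ball. -/
theorem ball_subset_of_near [CompleteSpace E] (K L : ConvexBody E) {x : E} {r s : ℝ} (hs : 0 ≤ s)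
    (hK : ball x r ⊆ (K : Set E)) (hd : dist K L < s) : ball x (r - s) ⊆ (L : Set E) := by
  intro y hy
  by_contra hyL
  obtain ⟨f, u, hf, hu⟩ := geometric_hahn_banach_closed_point L.convex L.isClosed hyL
  set v : E := (InnerProductSpace.toDual ℝ E).symm f with hv
  have hfv : ∀ z, f z = inner ℝ v z := fun z => by
    rw [hv, InnerProductSpace.toDual_symm_apply]
  obtain ⟨l₀, hl₀⟩ := L.nonempty
  have hv0 : v ≠ 0 := by
    intro h0
    have h1 := hf l₀ hl₀
    rw [hfv, h0, inner_zero_left] at h1
    rw [hfv, h0, inner_zero_left] at hu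
    linarith
  have hvn : 0 < ‖v‖ := norm_pos_iff.2 hv0
  have hz : y + (s / ‖v‖) • v ∈ (K : Set E) := by
    apply hK
    rw [mem_ball] at hy ⊢
    have h1 : dist (y + (s / ‖v‖) • v) y ≤ s := by
      rw [dist_eq_norm, add_sub_cancel_left, norm_smul, Real.norm_of_nonneg (by positivity),
        div_mul_cancel₀ _ hvn.ne']
    linarith [dist_triangle (y + (s / ‖v‖) • v) y x]
  have hd' : hausdorffDist (K : Set E) L < s := hd
  obtain ⟨l, hl, hzl⟩ := cpl_near K.nonempty K.isBounded L.nonempty L.isBounded hd' hz
  have h1 : f (y + (s / ‖v‖) • v) = f y + s * ‖v‖ := by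
    rw [hfv, inner_add_right, inner_smul_right, real_inner_self_eq_norm_sq, hfv]
    field_simp
  have h2 : f (y + (s / ‖v‖) • v) - f l ≤ ‖v‖ * dist (y + (s / ‖v‖) • v) l := by
    rw [← map_sub, hfv, dist_eq_norm]
    exact real_inner_le_norm _ _
  have h3 : ‖v‖ * dist (y + (s / ‖v‖) • v) l < ‖v‖ * s := mul_lt_mul_of_pos_left hzl hvn
  have h4 := hf l hl
  linarith

/-- The convex bodies with interior points form an open set. -/
theorem isOpen_solid [CompleteSpace E] :
    IsOpen {K : ConvexBody E | (interior (K : Set E)).Nonempty} := by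
  rw [Metric.isOpen_iff]
  rintro K ⟨x, hx⟩
  obtain ⟨r, hr, hxr⟩ := Metric.isOpen_iff.1 isOpen_interior x hx
  refine ⟨r / 2, by linarith, fun L hL => ?_⟩
  have h1 : ball x (r - r / 2) ⊆ (L : Set E) :=
    ball_subset_of_near K L (by linarith) (hxr.trans interior_subset)
      (by rw [dist_comm]; exact hL)
  exact ⟨x, interior_mono h1 (by
    rw [isOpen_ball.interior_eq]
    exact mem_ball_self (by linarith))⟩

/-- The closed ball of radius `r` as a convex body. -/
def cplBall [FiniteDimensional ℝ E] (r : ℝ) (hr : 0 ≤ r) : ConvexBody E where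
  carrier := closedBall (0 : E) r
  convex' := convex_closedBall 0 r
  isCompact' := isCompact_closedBall 0 r
  nonempty' := ⟨0, mem_closedBall_self hr⟩

theorem coe_cplBall [FiniteDimensional ℝ E] (r : ℝ) (hr : 0 ≤ r) :
    ((cplBall r hr : ConvexBody E) : Set E) = closedBall (0 : E) r := rfl

theorem dist_add_cplBall [FiniteDimensional ℝ E] (K : ConvexBody E) (r : ℝ) (hr : 0 ≤ r) :
    dist K (K + cplBall r hr) ≤ r := by
  refine hausdorffDist_le_of_mem_dist hr (fun x hx => ?_) fun x hx => ?_
  · refine ⟨x, ?_, by rw [dist_self]; exact hr⟩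
    rw [ConvexBody.coe_add]
    exact ⟨x, hx, 0, mem_closedBall_self hr, add_zero x⟩
  · rw [ConvexBody.coe_add] at hx
    obtain ⟨y, hy, b, hb, rfl⟩ := hx
    refine ⟨y, hy, ?_⟩
    have hb' : b ∈ closedBall (0 : E) r := hb
    rw [mem_closedBall_zero_iff] at hb'
    show dist (y + b) y ≤ r
    rw [dist_eq_norm, add_sub_cancel_left]
    exact hb'

/-- The convex bodies with interior points are dense. -/
theorem dense_solid [FiniteDimensional ℝ E] :
    Dense {K : ConvexBody E | (interior (K : Set E)).Nonempty} := by
  intro K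
  rw [Metric.mem_closure_iff]
  intro ε hε
  refine ⟨K + cplBall (ε / 2) (by linarith), ?_,
    lt_of_le_of_lt (dist_add_cplBall K _ _) (by linarith)⟩
  obtain ⟨x, hx⟩ := K.nonempty
  have h1 : ball x (ε / 2) ⊆ ((K + cplBall (ε / 2) (by linarith) : ConvexBody E) : Set E) := by
    intro y hy
    rw [ConvexBody.coe_add]
    refine ⟨x, hx, y - x, ?_, by simp⟩
    show y - x ∈ closedBall (0 : E) (ε / 2)
    rw [mem_closedBall_zero_iff, ← dist_eq_norm]
    exact (mem_ball.1 hy).le
  exact ⟨x, interior_mono h1 (by
    rw [isOpen_ball.interior_eq]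
    exact mem_ball_self (by linarith))⟩

/-- Residual sets of convex bodies are dense. -/
theorem dense_of_residual_convexBody {V : Type*} [NormedAddCommGroup V] [NormedSpace ℝ V]
    [CompleteSpace V] {S : Set (ConvexBody V)} (hS : S ∈ residual (ConvexBody V)) : Dense S := by
  have := completeSpace_convexBody (V := V)
  exact dense_of_mem_residual hS

/-- The bodies with interior points are residual. -/
theorem residual_solid [FiniteDimensional ℝ E] :
    {K : ConvexBody E | (interior (K : Set E)).Nonempty} ∈ residual (ConvexBody E) := by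
  have := FiniteDimensional.complete ℝ E
  exact residual_of_dense_open isOpen_solid dense_solid

end

/-- the space of convex bodies is complete -/
theorem complete {V : Type*} [NormedAddCommGroup V] [InnerProductSpace ℝ V]
    [FiniteDimensional ℝ V] : CompleteSpace (ConvexBody V) := by
  have := FiniteDimensional.complete ℝ V
  exact completeSpace_convexBody

/-- the convex bodies without interior points form a meagre set -/
theorem degenerate_meagre {V : Type*} [NormedAddCommGroup V] [InnerProductSpace ℝ V]
    [FiniteDimensional ℝ V] :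
    IsMeagre {K : ConvexBody V | ¬ (interior (K : Set V)).Nonempty} := by
  show {K : ConvexBody V | ¬ (interior (K : Set V)).Nonempty}ᶜ ∈ residual (ConvexBody V)
  have e : {K : ConvexBody V | ¬ (interior (K : Set V)).Nonempty}ᶜ =
      {K : ConvexBody V | (interior (K : Set V)).Nonempty} := by
    ext K
    simp
  rw [e]
  exact residual_solid

end Typ
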