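import Mathlib

/-! Typical bodies (MP_c1e66d_co): definitions.  `V` is a finite dimensional real inner product space. -/

open Set Metric Topology
open scoped InnerProductSpace Pointwise NNReal

namespace Typ

variable {V : Type*} [NormedAddCommGroup V] [InnerProductSpace ℝ V]

/-- the support function of a convex body -/
noncomputable def h (K : ConvexBody V) (w : V) : ℝ := sSup ((fun y => ⟪w, y⟫_ℝ) '' (K : Set V))

/-- positions of the normalised family (member 0 is at the origin) -/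
def X {n : ℕ} (q : Fin n → V × ℝ) : Fin (n + 1) → V := Fin.cons 0 (fun i => (q i).1)

/-- ratios of the normalised family (member 0 has ratio 1) -/
def L {n : ℕ} (q : Fin n → V × ℝ) : Fin (n + 1) → ℝ := Fin.cons 1 (fun i => (q i).2)

/-- bounded normalised clique data: `q` positions and ratios, `w i j` the directions -/
def Clq {n : ℕ} (m : ℝ) (K : ConvexBody V) (q : Fin n → V × ℝ)
    (w : Fin (n + 1) → Fin (n + 1) → V) : Prop :=
  (∀ i, ‖X q i‖ ≤ m) ∧ (∀ i, m⁻¹ ≤ L q i ∧ L q i ≤ m) ∧ (∀ i, w i i = 0) ∧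
  (∀ i j, i ≠ j → ‖w i j‖ = 1) ∧ (∀ i j, w j i = - w i j) ∧
  (∀ i j, i ≠ j → ⟪w i j, X q i - X q j⟫_ℝ = L q j * h K (w i j) + L q i * h K (-(w i j))) ∧
  (∀ i j, ∀ v : V, i ≠ j → ⟪v, X q i - X q j⟫_ℝ ≤ L q j * h K v + L q i * h K (-v))

/-- strictly convex, in terms of the support function -/
def SC (K : ConvexBody V) : Prop :=
  ∀ w : V, ‖w‖ = 1 → ∀ a ∈ K, ∀ b ∈ K, ⟪w, a⟫_ℝ = h K w → ⟪w, b⟫_ℝ = h K w → a = b

/-- unique outer unit normals -/
def SM (K : ConvexBody V) : Prop :=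
  ∀ a ∈ K, ∀ w w' : V, ‖w‖ = 1 → ‖w'‖ = 1 → ⟪w, a⟫_ℝ = h K w → ⟪w', a⟫_ℝ = h K w' → w = w'

end Typ
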