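import Pool.Agent.Typ.Supp

/-!
# Parameter count by Hausdorff dimension
-/

set_option autoImplicit false

open Set Topology Module

namespace Typ

/-- A set on which the coordinates in `K` are a Lipschitz function of the other coordinates and of `q` has dimension at most
`(f - |K|) + finrank E`. -/
theorem dim_piece {ι : Type*} [Fintype ι] [DecidableEq ι] {E : Type*} [NormedAddCommGroup E] [NormedSpace ℝ E]
    [FiniteDimensional ℝ E] (S : Set (ι → ℝ)) (q : (ι → ℝ) → E) (K : Finset ι) (C : ℝ)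
    (h : ∀ b ∈ S, ∀ b' ∈ S, ∀ k ∈ K, |b k - b' k| ≤ C * (‖q b - q b'‖ + ∑ i ∈ Kᶜ, |b i - b' i|)) :
    dimH S ≤ ((Fintype.card ι - K.card + finrank ℝ E : ℕ) : ENNReal) := by
  classical
  set C' : NNReal := Real.toNNReal (|C| * (1 + Fintype.card ι) + 1) with hC'
  have hC'r : (C' : ℝ) = |C| * (1 + Fintype.card ι) + 1 := Real.coe_toNNReal _ (by positivity)
  set g : S → (({i // i ∉ K} → ℝ) × E) := fun b => (fun i => (b : ι → ℝ) i.1, q b) with hg
  have hgl : AntilipschitzWith C' g := by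
    refine AntilipschitzWith.of_le_mul_dist fun x y => ?_
    have h1 : ∀ i, i ∉ K → |(x : ι → ℝ) i - (y : ι → ℝ) i| ≤ dist (g x) (g y) := by
      intro i hi
      have h2 : dist ((g x).1 ⟨i, hi⟩) ((g y).1 ⟨i, hi⟩) ≤ dist (g x).1 (g y).1 := dist_le_pi_dist _ _ _
      have h3 : dist (g x).1 (g y).1 ≤ dist (g x) (g y) := le_max_left _ _
      exact (Real.dist_eq _ _).symm.le.trans (h2.trans h3)
    have h4 : ‖q x - q y‖ ≤ dist (g x) (g y) := by
      rw [← dist_eq_norm]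
      exact le_max_right _ _
    have h0 : 0 ≤ dist (g x) (g y) := dist_nonneg
    have h5 : ∑ i ∈ Kᶜ, |(x : ι → ℝ) i - (y : ι → ℝ) i| ≤ Fintype.card ι * dist (g x) (g y) := by
      calc ∑ i ∈ Kᶜ, |(x : ι → ℝ) i - (y : ι → ℝ) i| ≤ ∑ _i ∈ Kᶜ, dist (g x) (g y) :=
            Finset.sum_le_sum fun i hi => h1 i (Finset.mem_compl.1 hi)
        _ = (Kᶜ.card : ℝ) * dist (g x) (g y) := by rw [Finset.sum_const, nsmul_eq_mul]
        _ ≤ Fintype.card ι * dist (g x) (g y) :=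
            mul_le_mul_of_nonneg_right (by exact_mod_cast Finset.card_le_univ _) h0
    rw [hC'r, Subtype.dist_eq, dist_pi_le_iff (by positivity)]
    intro i
    rw [Real.dist_eq]
    by_cases hi : i ∈ K
    · have h6 := h x x.2 y y.2 i hi
      have h7 : 0 ≤ ‖q x - q y‖ + ∑ i ∈ Kᶜ, |(x : ι → ℝ) i - (y : ι → ℝ) i| :=
        add_nonneg (norm_nonneg _) (Finset.sum_nonneg fun _ _ => abs_nonneg _)
      calc |(x : ι → ℝ) i - (y : ι → ℝ) i| ≤ C * (‖q x - q y‖ + ∑ i ∈ Kᶜ, |(x : ι → ℝ) i - (y : ι → ℝ) i|) := h6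
        _ ≤ |C| * (‖q x - q y‖ + ∑ i ∈ Kᶜ, |(x : ι → ℝ) i - (y : ι → ℝ) i|) :=
            mul_le_mul_of_nonneg_right (le_abs_self C) h7
        _ ≤ |C| * (dist (g x) (g y) + Fintype.card ι * dist (g x) (g y)) :=
            mul_le_mul_of_nonneg_left (add_le_add h4 h5) (abs_nonneg C)
        _ ≤ (|C| * (1 + Fintype.card ι) + 1) * dist (g x) (g y) := by nlinarith
    · calc |(x : ι → ℝ) i - (y : ι → ℝ) i| ≤ 1 * dist (g x) (g y) := by rw [one_mul]; exact h1 i hi
        _ ≤ (|C| * (1 + Fintype.card ι) + 1) * dist (g x) (g y) := by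
            apply mul_le_mul_of_nonneg_right _ h0
            have : 0 ≤ |C| * (1 + (Fintype.card ι : ℝ)) := by positivity
            linarith
  have h8 : dimH S = dimH (univ : Set S) := by
    have := (isometry_subtype_coe (s := S)).dimH_image (univ : Set S)
    rw [image_univ, Subtype.range_coe] at this
    exact this
  rw [h8]
  calc dimH (univ : Set S) ≤ dimH (g '' univ) := hgl.le_dimH_image univ
    _ ≤ dimH (univ : Set (({i // i ∉ K} → ℝ) × E)) := dimH_mono (subset_univ _)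
    _ = finrank ℝ (({i // i ∉ K} → ℝ) × E) := Real.dimH_univ_eq_finrank _
    _ = ((Fintype.card ι - K.card + finrank ℝ E : ℕ) : ENNReal) := by
        rw [finrank_prod, finrank_pi, Fintype.card_subtype_compl]
        simp

/-- PARAMETER COUNT. If every `b` in a set `Q` with an interior point has data `w b` (in a second countable space) and `q b` (in a space of
finite dimension `M`) and locally (near `(b0, w b0)`) more than `M` coordinates of `b` are Lipschitz functions of the other coordinates and of `q b`: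
contradiction. -/
theorem param_false {ι : Type*} [Fintype ι] [DecidableEq ι] {E W : Type*} [NormedAddCommGroup E] [NormedSpace ℝ E]
    [FiniteDimensional ℝ E] [TopologicalSpace W] [SecondCountableTopology W] (Q : Set (ι → ℝ))
    (hQ : (interior Q).Nonempty) (q : (ι → ℝ) → E) (w : (ι → ℝ) → W)
    (h : ∀ b0 ∈ Q, ∃ U ∈ 𝓝 (b0, w b0), ∃ K : Finset ι, finrank ℝ E < K.card ∧ ∃ C : ℝ, ∀ b ∈ Q, ∀ b' ∈ Q,
      (b, w b) ∈ U → (b', w b') ∈ U → ∀ k ∈ K, |b k - b' k| ≤ C * (‖q b - q b'‖ + ∑ i ∈ Kᶜ, |b i - b' i|)) :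
    False := by
  classical
  choose! U hU K hK C hC using h
  obtain ⟨t, htQ, htc, ht⟩ := TopologicalSpace.countable_cover_nhdsWithin (s := (fun b => (b, w b)) '' Q)
    (f := fun z => U z.1) (by
      rintro z ⟨b, hb, rfl⟩
      exact mem_nhdsWithin_of_mem_nhds (hU b hb))
  -- the pieces
  have hcov : Q ⊆ ⋃ z ∈ t, {b ∈ Q | (b, w b) ∈ U z.1} := by
    intro b hb
    have h1 := ht ⟨b, hb, rfl⟩
    rw [mem_iUnion₂] at h1 ⊢
    obtain ⟨z, hz, hbz⟩ := h1
    exact ⟨z, hz, hb, hbz⟩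
  have hd : ∀ z ∈ t, dimH {b ∈ Q | (b, w b) ∈ U z.1} < (Fintype.card ι : ENNReal) := by
    intro z hz
    obtain ⟨b0, hb0, rfl⟩ := htQ hz
    have h2 := dim_piece {b ∈ Q | (b, w b) ∈ U b0} q (K b0) (C b0)
      (fun b hb b' hb' k hk => hC b0 hb0 b hb.1 b' hb'.1 hb.2 hb'.2 k hk)
    refine h2.trans_lt ?_
    have h3 := hK b0 hb0
    have h4 := Finset.card_le_univ (K b0)
    have h5 : Fintype.card ι - (K b0).card + finrank ℝ E < Fintype.card ι := by omega
    exact_mod_cast h5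
  obtain ⟨b1, hb1⟩ := hQ
  have h6 : dimH Q = Fintype.card ι := by
    have := Real.dimH_of_mem_nhds (E := ι → ℝ) (x := b1) (s := Q) (mem_interior_iff_mem_nhds.1 hb1)
    rw [this, finrank_pi]
  by_cases hcard : Fintype.card ι = 0
  · have hb1Q := interior_subset hb1
    have h7 := hK b1 hb1Q
    have h8 := Finset.card_le_univ (K b1)
    omega
  have h9 : dimH (⋃ z ∈ t, {b ∈ Q | (b, w b) ∈ U z.1}) = ⨆ z ∈ t, dimH {b ∈ Q | (b, w b) ∈ U z.1} :=
    dimH_bUnion htc _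
  have h10 : (⨆ z ∈ t, dimH {b ∈ Q | (b, w b) ∈ U z.1}) ≤ ((Fintype.card ι - 1 : ℕ) : ENNReal) := by
    refine iSup₂_le fun z hz => ?_
    obtain ⟨b0, hb0, rfl⟩ := htQ hz
    have h2 := dim_piece {b ∈ Q | (b, w b) ∈ U b0} q (K b0) (C b0)
      (fun b hb b' hb' k hk => hC b0 hb0 b hb.1 b' hb'.1 hb.2 hb'.2 k hk)
    refine h2.trans ?_
    have h3 := hK b0 hb0
    have h4 := Finset.card_le_univ (K b0)
    have h5 : Fintype.card ι - (K b0).card + finrank ℝ E ≤ Fintype.card ι - 1 := by omega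
    exact_mod_cast h5
  have h11 : (Fintype.card ι : ENNReal) ≤ ((Fintype.card ι - 1 : ℕ) : ENNReal) := by
    rw [← h6]
    exact (dimH_mono hcov).trans (h9.le.trans h10)
  have h12 : Fintype.card ι ≤ Fintype.card ι - 1 := by exact_mod_cast h11
  omega

theorem dim_contra {f : ℕ} {Y W : Type*} [NormedAddCommGroup Y] [NormedSpace ℝ Y]
    [FiniteDimensional ℝ Y] [TopologicalSpace W] [SecondCountableTopology W]
    (Q : Set (Fin f → ℝ)) (hQ : (interior Q).Nonempty) (q : (Fin f → ℝ) → Y)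
    (w : (Fin f → ℝ) → W)
    (hloc : ∀ b0 ∈ Q, ∃ U ∈ 𝓝 (b0, q b0, w b0), ∃ (κ : Finset (Fin f)) (c : ℝ), 0 ≤ c ∧
      Module.finrank ℝ Y < κ.card ∧ ∀ b ∈ Q, ∀ b' ∈ Q, (b, q b, w b) ∈ U → (b', q b', w b') ∈ U →
        ∀ k ∈ κ, |b k - b' k| ≤ c * (‖q b - q b'‖ + ∑ l ∈ κᶜ, |b l - b' l|)) : False := by
  have : ProperSpace Y := FiniteDimensional.proper ℝ Y
  refine param_false Q hQ q (fun b => (q b, w b)) fun b0 hb0 => ?_
  obtain ⟨U, hU, κ, c, -, hκ, hc⟩ := hloc b0 hb0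
  exact ⟨U, hU, κ, hκ, c, hc⟩

end Typ
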