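import Pool.Agent.Typ.Supp

/-! M4: distinct ordered pairs of a clique of a strictly convex body have distinct directions. -/

open Set Metric Topology
open scoped InnerProductSpace Pointwise NNReal

namespace Typ

variable {V : Type*} [NormedAddCommGroup V] [InnerProductSpace ℝ V]

/-- a body with interior points has positive width in every direction -/
theorem width_pos (K : ConvexBody V) (hK : (interior (K : Set V)).Nonempty) {u : V}
    (hu : ‖u‖ = 1) : 0 < h K u + h K (-u) := by
  obtain ⟨x, hx⟩ := hK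
  rw [mem_interior_iff_mem_nhds, Metric.mem_nhds_iff] at hx
  obtain ⟨r, hr, hb⟩ := hx
  have h1 : x + (r / 2) • u ∈ K := by
    apply hb
    rw [mem_ball, dist_eq_norm, add_sub_cancel_left, norm_smul, hu,
      Real.norm_of_nonneg (by positivity)]
    linarith
  have h2 : x - (r / 2) • u ∈ K := by
    apply hb
    rw [mem_ball, dist_eq_norm, sub_sub_cancel_left, norm_neg, norm_smul, hu,
      Real.norm_of_nonneg (by positivity)]
    linarith
  have h3 := le_h K u h1
  have h4 := le_h K (-u) h2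
  rw [inner_add_right, real_inner_smul_right, real_inner_self_eq_norm_sq, hu] at h3
  rw [inner_neg_left, inner_sub_right, real_inner_smul_right, real_inner_self_eq_norm_sq,
    hu] at h4
  linarith

/-- two homothets that no hyperplane separates strictly have a common point -/
theorem common_point [FiniteDimensional ℝ V] (K : ConvexBody V) {x y : V} {a b : ℝ}
    (H : ∀ v : V, ⟪v, x - y⟫_ℝ ≤ b * h K v + a * h K (-v)) :
    ∃ p ∈ K, ∃ p' ∈ K, x + a • p = y + b • p' := by
  have : CompleteSpace V := FiniteDimensional.complete ℝ V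
  by_contra hcon
  push Not at hcon
  let g : V × V →L[ℝ] V := b • ContinuousLinearMap.snd ℝ V V - a • ContinuousLinearMap.fst ℝ V V
  have hcomp : IsCompact (g '' ((K : Set V) ×ˢ (K : Set V))) :=
    (K.isCompact.prod K.isCompact).image g.continuous
  have hconv : Convex ℝ (g '' ((K : Set V) ×ˢ (K : Set V))) :=
    (K.convex.prod K.convex).linear_image g.toLinearMap
  have hx : x - y ∉ g '' ((K : Set V) ×ˢ (K : Set V)) := by
    rintro ⟨⟨p, p'⟩, ⟨hp, hp'⟩, he⟩
    apply hcon p hp p' hp'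
    have he' : b • p' - a • p = x - y := he
    have h0 : x = y + (b • p' - a • p) := by rw [he']; abel
    rw [h0]
    abel
  obtain ⟨f, s, h1, h2⟩ := geometric_hahn_banach_closed_point hconv hcomp.isClosed hx
  set v := (InnerProductSpace.toDual ℝ V).symm f with hv
  have hfv : ∀ z, f z = ⟪v, z⟫_ℝ := fun z => (InnerProductSpace.toDual_symm_apply).symm
  obtain ⟨p', hp', e1⟩ := exists_h K v
  obtain ⟨p, hp, e2⟩ := exists_h K (-v)
  have h3 := h1 (g (p, p')) ⟨(p, p'), ⟨hp, hp'⟩, rfl⟩
  have h4 : f (g (p, p')) = b * h K v + a * h K (-v) := by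
    rw [hfv]
    show ⟪v, b • p' - a • p⟫_ℝ = _
    rw [inner_sub_right, real_inner_smul_right, real_inner_smul_right, e1, ← e2, inner_neg_left]
    ring
  have h5 := H v
  rw [← hfv] at h5
  linarith

/-- two members of a clique are not homothetic from a common point of both -/
theorem clq_no_center (K : ConvexBody V) (hK : (interior (K : Set V)).Nonempty) {n : ℕ} {m : ℝ}
    (hm : 0 < m) {q : Fin n → V × ℝ} {w : Fin (n + 1) → Fin (n + 1) → V} (hC : Clq m K q w)
    (a b : Fin (n + 1)) (hab : a ≠ b) {z : V} (hz : z ∈ K) :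
    X q a + L q a • z ≠ X q b + L q b • z := by
  intro he
  obtain ⟨-, c2, -, c4, -, c6, -⟩ := hC
  have hLa : 0 < L q a := lt_of_lt_of_le (inv_pos.2 hm) (c2 a).1
  have hLb : 0 < L q b := lt_of_lt_of_le (inv_pos.2 hm) (c2 b).1
  have hW := width_pos K hK (c4 a b hab)
  have t := c6 a b hab
  have hd : X q a - X q b = L q b • z - L q a • z := by
    have : X q a = X q b + L q b • z - L q a • z := by rw [← he]; abel
    rw [this]
    abel
  rw [hd, inner_sub_right, real_inner_smul_right, real_inner_smul_right] at t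
  have g1 := le_h K (w a b) hz
  have g2 := le_h K (-(w a b)) hz
  rw [inner_neg_left] at g2
  have g3 : 0 ≤ L q b * (h K (w a b) - ⟪w a b, z⟫_ℝ) := mul_nonneg hLb.le (by linarith)
  have g4 : 0 ≤ L q a * (h K (-(w a b)) + ⟪w a b, z⟫_ℝ) := mul_nonneg hLa.le (by linarith)
  have g5 : L q b * (h K (w a b) - ⟪w a b, z⟫_ℝ) + L q a * (h K (-(w a b)) + ⟪w a b, z⟫_ℝ) = 0 := by
    rw [mul_sub, mul_add]
    linarith
  have g6 : h K (w a b) - ⟪w a b, z⟫_ℝ = 0 :=
    (mul_eq_zero.1 (show L q b * (h K (w a b) - ⟪w a b, z⟫_ℝ) = 0 by linarith)).resolve_left hLb.ne'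
  have g7 : h K (-(w a b)) + ⟪w a b, z⟫_ℝ = 0 :=
    (mul_eq_zero.1 (show L q a * (h K (-(w a b)) + ⟪w a b, z⟫_ℝ) = 0 by linarith)).resolve_left
      hLa.ne'
  linarith

/-- M4; smoothness is not needed -/
theorem clq_distinct' [FiniteDimensional ℝ V] (K : ConvexBody V)
    (hK : (interior (K : Set V)).Nonempty) (h1 : SC K) {n : ℕ} {m : ℝ} (hm : 0 < m)
    {q : Fin n → V × ℝ} {w : Fin (n + 1) → Fin (n + 1) → V} (hC : Clq m K q w)
    (i j k l : Fin (n + 1)) (hij : i ≠ j) (hkl : k ≠ l) (hne : (i, j) ≠ (k, l)) :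
    w i j ≠ w k l := by
  intro he
  obtain ⟨-, c2, -, c4, -, c6, c7⟩ := id hC
  have hL : ∀ a, 0 < L q a := fun a => lt_of_lt_of_le (inv_pos.2 hm) (c2 a).1
  have hu : ‖w i j‖ = 1 := c4 i j hij
  have hW := width_pos K hK hu
  have t1 := c6 i j hij
  have t2 := c6 k l hkl
  rw [← he] at t2
  generalize w i j = u at hu hW t1 t2
  rw [inner_sub_right] at t1 t2
  have J : ∀ a b, ⟪u, X q a⟫_ℝ - L q a * h K (-u) ≤ ⟪u, X q b⟫_ℝ + L q b * h K u := by
    intro a b
    by_cases hab : a = b
    · subst hab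
      have := mul_pos (hL a) hW
      rw [mul_add] at this
      linarith
    · have := c7 a b u hab
      rw [inner_sub_right] at this
      linarith
  have q1 := J i l
  have q2 := J k j
  have hil : i ≠ l := by
    rintro rfl
    have := mul_pos (hL i) hW
    rw [mul_add] at this
    linarith
  obtain ⟨e, he1, he2⟩ := exists_h K (-u)
  obtain ⟨e', he1', he2'⟩ := exists_h K u
  have key : ∀ a b, a ≠ b →
      ⟪u, X q a⟫_ℝ - L q a * h K (-u) = ⟪u, X q b⟫_ℝ + L q b * h K u →
      X q a + L q a • e = X q b + L q b • e' := by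
    intro a b hab hab2
    obtain ⟨p, hp, p', hp', hpp⟩ := common_point K (x := X q a) (y := X q b) (a := L q a)
      (b := L q b) (fun v => c7 a b v hab)
    have g1 := le_h K (-u) hp
    have g2 := le_h K u hp'
    have g3 : ⟪u, X q a⟫_ℝ + L q a * ⟪u, p⟫_ℝ = ⟪u, X q b⟫_ℝ + L q b * ⟪u, p'⟫_ℝ := by
      have := congrArg (fun z => ⟪u, z⟫_ℝ) hpp
      simpa only [inner_add_right, real_inner_smul_right] using this
    rw [inner_neg_left] at g1
    have g5 : 0 ≤ L q a * (h K (-u) + ⟪u, p⟫_ℝ) := mul_nonneg (hL a).le (by linarith)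
    have g6 : 0 ≤ L q b * (h K u - ⟪u, p'⟫_ℝ) := mul_nonneg (hL b).le (by linarith)
    have g4 : L q a * (h K (-u) + ⟪u, p⟫_ℝ) + L q b * (h K u - ⟪u, p'⟫_ℝ) = 0 := by
      rw [mul_add, mul_sub]
      linarith
    have g7 : h K (-u) + ⟪u, p⟫_ℝ = 0 :=
      (mul_eq_zero.1 (show L q a * (h K (-u) + ⟪u, p⟫_ℝ) = 0 by linarith)).resolve_left
        (hL a).ne'
    have g8 : h K u - ⟪u, p'⟫_ℝ = 0 :=
      (mul_eq_zero.1 (show L q b * (h K u - ⟪u, p'⟫_ℝ) = 0 by linarith)).resolve_left (hL b).ne'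
    have ep : p = e :=
      h1 (-u) (by rw [norm_neg]; exact hu) p hp e he1 (by rw [inner_neg_left]; linarith) he2
    have ep' : p' = e' := h1 u hu p' hp' e' he1' (by linarith) he2'
    rw [← ep, ← ep']
    exact hpp
  have e3 := key i l hil (by linarith)
  by_cases hik : i = k
  · have hjl : j ≠ l := fun hjl => hne (by rw [hik, hjl])
    have e4 := key i j hij (by linarith)
    exact clq_no_center K hK hm hC j l hjl he1' (by rw [← e4, ← e3])
  · have e5 := key k l hkl (by linarith)
    exact clq_no_center K hK hm hC i k hik he1 (by rw [e3, e5])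

/-- M4 -/
theorem clq_distinct [FiniteDimensional ℝ V] (K : ConvexBody V)
    (hK : (interior (K : Set V)).Nonempty) (h1 : SC K) (_h2 : SM K) {n : ℕ} {m : ℝ} (hm : 0 < m)
    {q : Fin n → V × ℝ} {w : Fin (n + 1) → Fin (n + 1) → V} (hC : Clq m K q w)
    (i j k l : Fin (n + 1)) (hij : i ≠ j) (hkl : k ≠ l) (hne : (i, j) ≠ (k, l)) :
    w i j ≠ w k l :=
  clq_distinct' K hK h1 hm hC i j k l hij hkl hne

end Typ
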