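import Pool.Agent.Typ.Fam

open Set Metric Topology
open scoped InnerProductSpace Pointwise NNReal

namespace Typ

variable {V : Type*} [NormedAddCommGroup V] [InnerProductSpace ℝ V]

theorem norm_X_sub {n : ℕ} (q q' : Fin n → V × ℝ) (i : Fin (n + 1)) :
    ‖X q i - X q' i‖ ≤ ‖q - q'‖ := by
  refine Fin.cases ?_ (fun i => ?_) i
  · simp [X]
  · have h1 : ‖(q - q') i‖ ≤ ‖q - q'‖ := norm_le_pi_norm _ i
    refine le_trans ?_ h1
    simp only [X, Fin.cons_succ]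
    exact norm_fst_le ((q - q') i)

theorem abs_L_sub {n : ℕ} (q q' : Fin n → V × ℝ) (i : Fin (n + 1)) :
    |L q i - L q' i| ≤ ‖q - q'‖ := by
  refine Fin.cases ?_ (fun i => ?_) i
  · simp [L]
  · have h1 : ‖(q - q') i‖ ≤ ‖q - q'‖ := norm_le_pi_norm _ i
    refine le_trans ?_ h1
    simp only [L, Fin.cons_succ]
    exact norm_snd_le ((q - q') i)

theorem abs_h_le (K : ConvexBody V) {R : ℝ} (hR : ∀ y ∈ K, ‖y‖ ≤ R) {v : V} (hv : ‖v‖ = 1) :
    |h K v| ≤ R := by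
  obtain ⟨y, hy, e⟩ := exists_h K v
  rw [← e]
  refine (abs_real_inner_le_norm v y).trans ?_
  rw [hv, one_mul]
  exact hR y hy

theorem norm_Kb_le [FiniteDimensional ℝ V] {f : ℕ} (K0 : ConvexBody V)
    (C : Fin f → ConvexBody V) (hC : ∀ k, ∀ y ∈ C k, ‖y‖ ≤ 2) {β H : ℝ}
    (hH : ∀ y ∈ K0, ‖y‖ + 2 * β ≤ H) {b : Fin f → ℝ} (hb : ∀ k, 0 ≤ b k) (hβ : ∑ k, b k ≤ β) :
    ∀ y ∈ Kb K0 C β b, ‖y‖ ≤ H := by
  intro y hy
  rw [Kb, mem_add_iff] at hy
  obtain ⟨a, ha, t, ht, rfl⟩ := hy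
  have h1 := norm_pert C hC hb hβ t ht
  have h2 := hH a ha
  exact (norm_add_le _ _).trans (by linarith)

/-- lower bound for the change of the support function in a direction of a chosen cap -/
theorem h_diff_lb [FiniteDimensional ℝ V] {f : ℕ} (K0 : ConvexBody V) (C : Fin f → ConvexBody V)
    (hC : ∀ k, ∀ y ∈ C k, ‖y‖ ≤ 2) (hC1 : ∀ k w, ‖w‖ ≤ h (C k) w) {β : ℝ}
    {b b' : Fin f → ℝ} (hb : ∀ k, 0 ≤ b k)
    (hβ : ∑ k, b k ≤ β) (hb' : ∀ k, 0 ≤ b' k) (hβ' : ∑ k, b' k ≤ β) (κ : Finset (Fin f))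
    (k : Fin f) (hk : k ∈ κ) (v : V) (hv : ‖v‖ = 1)
    (p : ∀ l ∈ κ, l ≠ k → h (C l) v = 1) :
    (b' k - b k) * (h (C k) v - 1) - ∑ l ∈ κᶜ, |b l - b' l| ≤
      h (Kb K0 C β b') v - h (Kb K0 C β b) v := by
  classical
  rw [h_Kb K0 C hb hβ, h_Kb K0 C hb' hβ', hv]
  have e : h K0 v + β * 1 + ∑ k, b' k * (h (C k) v - 1) -
      (h K0 v + β * 1 + ∑ k, b k * (h (C k) v - 1)) = ∑ l, (b' l - b l) * (h (C l) v - 1) := by
    have : ∑ l, (b' l - b l) * (h (C l) v - 1) =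
        ∑ k, b' k * (h (C k) v - 1) - ∑ k, b k * (h (C k) v - 1) := by
      rw [← Finset.sum_sub_distrib]
      exact Finset.sum_congr rfl fun l _ => by ring
    rw [this]
    ring
  rw [e, ← Finset.sum_add_sum_compl κ]
  have e1 : ∑ l ∈ κ, (b' l - b l) * (h (C l) v - 1) = (b' k - b k) * (h (C k) v - 1) := by
    refine Finset.sum_eq_single_of_mem k hk fun l hl hlk => ?_
    rw [p l hl hlk]
    ring
  rw [e1]
  have e2 : -∑ l ∈ κᶜ, |b l - b' l| ≤ ∑ l ∈ κᶜ, (b' l - b l) * (h (C l) v - 1) := by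
    rw [← Finset.sum_neg_distrib]
    refine Finset.sum_le_sum fun l _ => ?_
    have g1 : 0 ≤ h (C l) v - 1 := by
      have := hC1 l v
      rw [hv] at this
      linarith
    have g2 : h (C l) v - 1 ≤ 1 := by
      have := (le_abs_self _).trans (abs_h_le (C l) (hC l) hv)
      linarith
    have g3 : -|b l - b' l| ≤ b' l - b l := by
      rw [abs_sub_comm]
      exact neg_abs_le _
    have g4 : 0 ≤ |b l - b' l| := abs_nonneg _
    rcases le_total 0 (b' l - b l) with g5 | g5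
    · have := mul_nonneg g5 g1
      linarith
    · nlinarith
  linarith

theorem local_lip [FiniteDimensional ℝ V] {f n : ℕ} (K0 : ConvexBody V) (C : Fin f → ConvexBody V)
    (hC : ∀ k, ∀ y ∈ C k, ‖y‖ ≤ 2) (hC1 : ∀ k w, ‖w‖ ≤ h (C k) w) {β m H c1 : ℝ} (hm : 0 < m)
    (hH : ∀ y ∈ K0, ‖y‖ + 2 * β ≤ H) (hc1 : 0 < c1) {b b' : Fin f → ℝ} (hb : ∀ k, 0 ≤ b k)
    (hβ : ∑ k, b k ≤ β) (hb' : ∀ k, 0 ≤ b' k) (hβ' : ∑ k, b' k ≤ β)
    {q q' : Fin n → V × ℝ} {w w' : Fin (n + 1) → Fin (n + 1) → V}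
    (h1 : Clq m (Kb K0 C β b) q w) (h2 : Clq m (Kb K0 C β b') q' w')
    (κ : Finset (Fin f)) (k : Fin f) (hk : k ∈ κ) (i j : Fin (n + 1)) (hij : i ≠ j)
    (p1 : 1 + c1 ≤ h (C k) (w' i j)) (p2 : ∀ l ∈ κ, l ≠ k → h (C l) (w' i j) = 1)
    (p3 : ∀ l ∈ κ, l ≠ k → h (C l) (-(w' i j)) = 1) :
    b' k - b k ≤ (m / c1) * (2 + 2 * H + 2 * m) * (‖q - q'‖ + ∑ l ∈ κᶜ, |b l - b' l|) := by
  obtain ⟨-, -, -, -, -, -, hI⟩ := h1
  obtain ⟨-, hL', -, hn', -, hT', -⟩ := h2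
  set v := w' i j with hv
  have hvn : ‖v‖ = 1 := hn' i j hij
  have hvn' : ‖-v‖ = 1 := by rw [norm_neg, hvn]
  set D := ‖q - q'‖ with hD
  set S := ∑ l ∈ κᶜ, |b l - b' l| with hS
  have hD0 : 0 ≤ D := norm_nonneg _
  have hS0 : 0 ≤ S := Finset.sum_nonneg fun l _ => abs_nonneg _
  have hKb := norm_Kb_le K0 C hC hH hb hβ
  obtain ⟨y0, hy0⟩ := (Kb K0 C β b).nonempty
  have hH0 : 0 ≤ H := (norm_nonneg y0).trans (hKb y0 hy0)
  rcases le_total (b' k - b k) 0 with hneg | hpos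
  · exact hneg.trans (by positivity)
  have t := hT' i j hij
  have u := hI i j v hij
  have a1 : ⟪v, X q' i - X q' j⟫_ℝ - ⟪v, X q i - X q j⟫_ℝ ≤ 2 * D := by
    rw [← inner_sub_right]
    refine (real_inner_le_norm _ _).trans ?_
    rw [hvn, one_mul]
    have e : X q' i - X q' j - (X q i - X q j) = (X q j - X q' j) - (X q i - X q' i) := by abel
    rw [e]
    refine (norm_sub_le _ _).trans ?_
    have := norm_X_sub q q' i
    have := norm_X_sub q q' j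
    linarith
  have a2 := h_diff_lb K0 C hC hC1 hb hβ hb' hβ' κ k hk v hvn p2
  have a3 := h_diff_lb K0 C hC hC1 hb hβ hb' hβ' κ k hk (-v) hvn' p3
  have a4 : 0 ≤ (b' k - b k) * (h (C k) (-v) - 1) := by
    refine mul_nonneg hpos ?_
    have := hC1 k (-v)
    rw [hvn'] at this
    linarith
  have a5 : (b' k - b k) * c1 ≤ (b' k - b k) * (h (C k) v - 1) :=
    mul_le_mul_of_nonneg_left (by linarith) hpos
  have b1 := abs_le.1 (abs_h_le (Kb K0 C β b) hKb hvn)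
  have b2 := abs_le.1 (abs_h_le (Kb K0 C β b) hKb hvn')
  have c1' := abs_le.1 (abs_L_sub q q' j)
  have c2' := abs_le.1 (abs_L_sub q q' i)
  have l1 := hL' i
  have l2 := hL' j
  have hmi : 0 < m⁻¹ := inv_pos.2 hm
  have li0 : 0 ≤ L q' i := hmi.le.trans l1.1
  have lj0 : 0 ≤ L q' j := hmi.le.trans l2.1
  -- products
  have d1 : -(D * H) ≤ (L q' j - L q j) * h (Kb K0 C β b) v := by
    have : |(L q' j - L q j) * h (Kb K0 C β b) v| ≤ D * H := by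
      rw [abs_mul]
      refine mul_le_mul ?_ (abs_h_le (Kb K0 C β b) hKb hvn) (abs_nonneg _) hD0
      rw [abs_sub_comm]
      exact abs_L_sub q q' j
    exact (abs_le.1 this).1
  have d2 : -(D * H) ≤ (L q' i - L q i) * h (Kb K0 C β b) (-v) := by
    have : |(L q' i - L q i) * h (Kb K0 C β b) (-v)| ≤ D * H := by
      rw [abs_mul]
      refine mul_le_mul ?_ (abs_h_le (Kb K0 C β b) hKb hvn') (abs_nonneg _) hD0
      rw [abs_sub_comm]
      exact abs_L_sub q q' i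
    exact (abs_le.1 this).1
  have e1 : L q' j * ((b' k - b k) * c1 - S) ≤
      L q' j * (h (Kb K0 C β b') v - h (Kb K0 C β b) v) :=
    mul_le_mul_of_nonneg_left (by linarith) lj0
  have e2 : L q' i * (-S) ≤ L q' i * (h (Kb K0 C β b') (-v) - h (Kb K0 C β b) (-v)) :=
    mul_le_mul_of_nonneg_left (by linarith) li0
  have e3 : L q' j * S ≤ m * S := mul_le_mul_of_nonneg_right l2.2 hS0
  have e4 : L q' i * S ≤ m * S := mul_le_mul_of_nonneg_right l1.2 hS0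
  have e5 : m⁻¹ * ((b' k - b k) * c1) ≤ L q' j * ((b' k - b k) * c1) :=
    mul_le_mul_of_nonneg_right l2.1 (mul_nonneg hpos hc1.le)
  have key : m⁻¹ * ((b' k - b k) * c1) ≤ (2 + 2 * H) * D + 2 * m * S := by
    nlinarith [e1, e2, e3, e4, e5, d1, d2, a1, t, u]
  have key2 : (2 + 2 * H) * D + 2 * m * S ≤ (2 + 2 * H + 2 * m) * (D + S) := by
    nlinarith [mul_nonneg hm.le hD0, mul_nonneg hH0 hS0]
  have fin : b' k - b k = (m / c1) * (m⁻¹ * ((b' k - b k) * c1)) := by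
    field_simp
  rw [fin, mul_assoc (m / c1)]
  exact mul_le_mul_of_nonneg_left (key.trans key2) (by positivity)

end Typ
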