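import Pool.Agent.Typ.Clos

/-! Typical bodies (MP_c1e66d_co), M5: uniform separation of the directions of the cliques of a body
and of its neighbours. -/

open Set Metric Topology
open scoped InnerProductSpace Pointwise NNReal

namespace Typ

variable {V : Type*} [NormedAddCommGroup V] [InnerProductSpace ℝ V]

private theorem sep_compact [FiniteDimensional ℝ V] (K : ConvexBody V) {n : ℕ} (m : ℝ) :
    IsCompact {p : (Fin n → V × ℝ) × (Fin (n + 1) → Fin (n + 1) → V) | Clq m K p.1 p.2} := by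
  have : ProperSpace ((Fin n → V × ℝ) × (Fin (n + 1) → Fin (n + 1) → V)) :=
    FiniteDimensional.proper_real _
  have hcl : IsClosed {p : (Fin n → V × ℝ) × (Fin (n + 1) → Fin (n + 1) → V) |
      Clq m K p.1 p.2} := by
    have h1 := clq_closed (V := V) (n := n) m
    have h2 : Continuous (fun p : (Fin n → V × ℝ) × (Fin (n + 1) → Fin (n + 1) → V) => (K, p)) := by
      fun_prop
    exact h1.preimage h2
  refine Metric.isCompact_of_isClosed_isBounded hcl ?_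
  refine (Metric.isBounded_closedBall (x := (0 : (Fin n → V × ℝ) ×
    (Fin (n + 1) → Fin (n + 1) → V))) (r := |m| + |m⁻¹| + 1)).subset ?_
  rintro ⟨q, w⟩ ⟨h1, h2, h3, h4, -⟩
  have hR : 0 ≤ |m| + |m⁻¹| + 1 := by positivity
  rw [mem_closedBall_zero_iff, Prod.norm_def, max_le_iff]
  constructor
  · rw [pi_norm_le_iff_of_nonneg hR]
    intro i
    rw [Prod.norm_def, max_le_iff]
    constructor
    · have h5 : ‖(q i).1‖ ≤ m := h1 i.succ
      have h6 := le_abs_self m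
      have h7 := abs_nonneg m⁻¹
      linarith
    · have h5 : m⁻¹ ≤ (q i).2 ∧ (q i).2 ≤ m := h2 i.succ
      rw [Real.norm_eq_abs, abs_le]
      have h6 := le_abs_self m
      have h7 := neg_abs_le m⁻¹
      have h8 := abs_nonneg m
      have h9 := abs_nonneg m⁻¹
      constructor <;> linarith [h5.1, h5.2]
  · rw [pi_norm_le_iff_of_nonneg hR]
    intro i
    rw [pi_norm_le_iff_of_nonneg hR]
    intro j
    have h8 := abs_nonneg m
    have h9 := abs_nonneg m⁻¹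
    by_cases hij : i = j
    · subst hij
      have h5 : w i i = 0 := h3 i
      show ‖w i i‖ ≤ _
      rw [h5, norm_zero]
      exact hR
    · have h5 : ‖w i j‖ = 1 := h4 i j hij
      show ‖w i j‖ ≤ _
      rw [h5]
      linarith

private theorem sep_one [FiniteDimensional ℝ V] (K0 : ConvexBody V) {n : ℕ} (m : ℝ)
    (i j k l : Fin (n + 1))
    (H : ∀ (q : Fin n → V × ℝ) (w : Fin (n + 1) → Fin (n + 1) → V), Clq m K0 q w →
      w i j ≠ w k l) :
    ∃ δ : ℝ, 0 < δ ∧ ∃ ρ : ℝ, 0 < ρ ∧ ∀ K : ConvexBody V, dist K K0 < ρ →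
      ∀ (q : Fin n → V × ℝ) (w : Fin (n + 1) → Fin (n + 1) → V), Clq m K q w →
      δ ≤ ‖w i j - w k l‖ := by
  set Z : ℕ → Set ((Fin n → V × ℝ) × (Fin (n + 1) → Fin (n + 1) → V)) :=
    fun t => {p | ‖p.2 i j - p.2 k l‖ ≤ 1 / ((t : ℝ) + 1)} with hZdef
  have hcont : Continuous (fun p : (Fin n → V × ℝ) × (Fin (n + 1) → Fin (n + 1) → V) =>
      ‖p.2 i j - p.2 k l‖) := by fun_prop
  have hZ : ∀ t, IsClosed (Z t) := fun t => isClosed_le hcont continuous_const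
  have key : ∃ t : ℕ, K0 ∉ {K : ConvexBody V | ∃ q w, (q, w) ∈ Z t ∧ Clq m K q w} := by
    by_contra hcon
    push Not at hcon
    set S := {p : (Fin n → V × ℝ) × (Fin (n + 1) → Fin (n + 1) → V) | Clq m K0 p.1 p.2} with hS
    have hScomp : IsCompact S := sep_compact K0 m
    have hne := IsCompact.nonempty_iInter_of_sequence_nonempty_isCompact_isClosed
      (fun t => S ∩ Z t) ?_ ?_ ?_ ?_
    · obtain ⟨p, hp⟩ := hne
      rw [mem_iInter] at hp
      have h1 : Clq m K0 p.1 p.2 := (hp 0).1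
      apply H p.1 p.2 h1
      have h2 : ∀ t : ℕ, ‖p.2 i j - p.2 k l‖ ≤ 1 / ((t : ℝ) + 1) := fun t => (hp t).2
      have h3 : ‖p.2 i j - p.2 k l‖ ≤ 0 :=
        ge_of_tendsto' tendsto_one_div_add_atTop_nhds_zero_nat h2
      have h4 : ‖p.2 i j - p.2 k l‖ = 0 := le_antisymm h3 (norm_nonneg _)
      exact sub_eq_zero.mp (norm_eq_zero.mp h4)
    · intro t p hp
      refine ⟨hp.1, ?_⟩
      have h1 : ‖p.2 i j - p.2 k l‖ ≤ 1 / (((t + 1 : ℕ) : ℝ) + 1) := hp.2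
      refine h1.trans ?_
      push_cast
      apply one_div_le_one_div_of_le
      · positivity
      · linarith
    · intro t
      obtain ⟨q, w, h1, h2⟩ := hcon t
      exact ⟨(q, w), h2, h1⟩
    · exact hScomp.inter_right (hZ 0)
    · intro t
      exact hScomp.isClosed.inter (hZ t)
  obtain ⟨t, ht⟩ := key
  have hcl := clq_proj m (Z t) (hZ t)
  have hopen := hcl.isOpen_compl
  obtain ⟨ρ, hρ, hball⟩ := Metric.isOpen_iff.mp hopen K0 ht
  refine ⟨1 / ((t : ℝ) + 1), by positivity, ρ, hρ, ?_⟩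
  intro K hK q w hC
  by_contra hlt
  push Not at hlt
  have h1 : K ∈ Metric.ball K0 ρ := hK
  exact hball h1 ⟨q, w, hlt.le, hC⟩

theorem exists_sep [FiniteDimensional ℝ V] (K0 : ConvexBody V) {n : ℕ} (m : ℝ)
    (H : ∀ (q : Fin n → V × ℝ) (w : Fin (n + 1) → Fin (n + 1) → V), Clq m K0 q w →
      ∀ i j k l, i ≠ j → k ≠ l → (i, j) ≠ (k, l) → w i j ≠ w k l) :
    ∃ δ : ℝ, 0 < δ ∧ ∃ ρ : ℝ, 0 < ρ ∧ ∀ K : ConvexBody V, dist K K0 < ρ →
      ∀ (q : Fin n → V × ℝ) (w : Fin (n + 1) → Fin (n + 1) → V), Clq m K q w →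
      ∀ i j k l, i ≠ j → k ≠ l → (i, j) ≠ (k, l) → δ ≤ ‖w i j - w k l‖ := by
  have key : ∀ t : (Fin (n + 1) × Fin (n + 1)) × (Fin (n + 1) × Fin (n + 1)),
      ∃ δ : ℝ, 0 < δ ∧ ∃ ρ : ℝ, 0 < ρ ∧ ∀ K : ConvexBody V, dist K K0 < ρ →
      ∀ (q : Fin n → V × ℝ) (w : Fin (n + 1) → Fin (n + 1) → V), Clq m K q w →
      t.1.1 ≠ t.1.2 → t.2.1 ≠ t.2.2 → t.1 ≠ t.2 → δ ≤ ‖w t.1.1 t.1.2 - w t.2.1 t.2.2‖ := by
    rintro ⟨⟨i, j⟩, ⟨k, l⟩⟩
    by_cases h1 : i ≠ j ∧ k ≠ l ∧ (i, j) ≠ (k, l)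
    · obtain ⟨δ, hδ, ρ, hρ, hh⟩ := sep_one K0 m i j k l
        (fun q w hC => H q w hC i j k l h1.1 h1.2.1 h1.2.2)
      exact ⟨δ, hδ, ρ, hρ, fun K hK q w hC _ _ _ => hh K hK q w hC⟩
    · refine ⟨1, one_pos, 1, one_pos, fun K _ q w _ h2 h3 h4 => ?_⟩
      exact absurd ⟨h2, h3, h4⟩ h1
  choose δ hδ ρ hρ hh using key
  have hne : (Finset.univ : Finset ((Fin (n + 1) × Fin (n + 1)) ×
    (Fin (n + 1) × Fin (n + 1)))).Nonempty := Finset.univ_nonempty
  refine ⟨Finset.univ.inf' hne δ, (Finset.lt_inf'_iff hne).mpr (fun t _ => hδ t),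
    Finset.univ.inf' hne ρ, (Finset.lt_inf'_iff hne).mpr (fun t _ => hρ t), ?_⟩
  intro K hK q w hC i j k l h1 h2 h3
  have h4 : dist K K0 < ρ ((i, j), (k, l)) :=
    lt_of_lt_of_le hK (Finset.inf'_le _ (Finset.mem_univ _))
  exact (Finset.inf'_le _ (Finset.mem_univ ((i, j), (k, l)))).trans
    (hh ((i, j), (k, l)) K h4 q w hC h1 h2 h3)

end Typ
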