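import Pool.Agent.Typ.Fam
import Pool.Agent.Typ.Distinct
import Pool.Agent.Typ.Sep
import Pool.Agent.Typ.Bump
import Pool.Agent.Typ.Lip
import Pool.Agent.Typ.Dim

open Set Metric Topology
open scoped InnerProductSpace Pointwise NNReal

namespace Typ

variable {V : Type*} [NormedAddCommGroup V] [InnerProductSpace ℝ V]

theorem neg_mem_sum {ι : Type*} (s : Finset ι) (F : ι → ConvexBody V)
    (H : ∀ i ∈ s, ∀ y ∈ F i, -y ∈ F i) : ∀ y ∈ ∑ i ∈ s, F i, -y ∈ ∑ i ∈ s, F i := by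
  classical
  induction s using Finset.induction_on with
  | empty =>
    intro y hy
    rw [Finset.sum_empty, mem_zero_iff] at hy ⊢
    simp [hy]
  | insert a s ha ih =>
    intro y hy
    rw [Finset.sum_insert ha, mem_add_iff] at hy ⊢
    obtain ⟨u, hu, v, hv, rfl⟩ := hy
    exact ⟨-u, H a (Finset.mem_insert_self _ _) u hu, -v,
      ih (fun i hi => H i (Finset.mem_insert_of_mem hi)) v hv, by abel⟩

theorem neg_mem_smul {K : ConvexBody V} (H : ∀ y ∈ K, -y ∈ K) (c : ℝ) :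
    ∀ y ∈ c • K, -y ∈ c • K := by
  intro y hy
  rw [mem_smul_iff] at hy ⊢
  obtain ⟨a, ha, rfl⟩ := hy
  exact ⟨-a, H a ha, by rw [smul_neg]⟩

theorem Kb_symm [FiniteDimensional ℝ V] {f : ℕ} (K0 : ConvexBody V) (C : Fin f → ConvexBody V)
    (hC : ∀ k, ∀ y ∈ C k, -y ∈ C k) (β : ℝ) (b : Fin f → ℝ) (H : ∀ y ∈ K0, -y ∈ K0) :
    ∀ y ∈ Kb K0 C β b, -y ∈ Kb K0 C β b := by
  intro y hy
  rw [Kb, mem_add_iff] at hy ⊢
  obtain ⟨u, hu, v, hv, rfl⟩ := hy
  refine ⟨-u, H u hu, -v, ?_, by abel⟩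
  rw [mem_add_iff] at hv ⊢
  obtain ⟨s, hs, t, ht, rfl⟩ := hv
  refine ⟨-s, ?_, -t, ?_, by abel⟩
  · exact neg_mem_smul (fun y hy => by rw [mem_ballBody] at hy ⊢; rwa [norm_neg]) _ s hs
  · exact neg_mem_sum _ _ (fun k _ => neg_mem_smul (hC k) (b k)) t ht

/-- the simplex of parameters -/
def Qs (f : ℕ) (β : ℝ) : Set (Fin f → ℝ) := {b | (∀ k, 0 ≤ b k) ∧ ∑ k, b k ≤ β}

theorem Qs_interior (f : ℕ) {β : ℝ} (hβ : 0 < β) : (interior (Qs f β)).Nonempty := by
  have h0 : (0:ℝ) < β / (f + 1) := by positivity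
  refine ⟨fun _ => β / (f + 1) / 2, ?_⟩
  rw [mem_interior]
  refine ⟨Set.pi Set.univ (fun _ => Ioo 0 (β / (f + 1))), ?_, isOpen_set_pi Set.finite_univ
    (fun _ _ => isOpen_Ioo), ?_⟩
  · intro b hb
    rw [Set.mem_univ_pi] at hb
    refine ⟨fun k => (hb k).1.le, ?_⟩
    calc ∑ k, b k ≤ ∑ _k : Fin f, β / (f + 1) := Finset.sum_le_sum (fun k _ => (hb k).2.le)
      _ = f * (β / (f + 1)) := by simp
      _ ≤ β := by
        rw [mul_div_assoc', div_le_iff₀ (by positivity)]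
        nlinarith
  · rw [Set.mem_univ_pi]
    intro k
    constructor
    · positivity
    · exact half_lt_self h0

/-- increasing pairs -/
def Pr (n : ℕ) : Finset (Fin (n + 1) × Fin (n + 1)) := Finset.univ.filter (fun p => p.1 < p.2)

theorem card_Pr (n : ℕ) : 2 * (Pr n).card = (n + 1) * n := by
  have h1 : (Finset.univ : Finset (Fin (n + 1))).offDiag.card = (n + 1) * n := by
    rw [Finset.offDiag_card, Finset.card_univ, Fintype.card_fin]
    have : (n + 1) * (n + 1) = (n + 1) * n + (n + 1) := by ring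
    omega
  have h2 : (Finset.univ : Finset (Fin (n + 1))).offDiag
      = Pr n ∪ (Pr n).map ⟨Prod.swap, Prod.swap_injective⟩ := by
    ext ⟨a, b⟩
    simp only [Finset.mem_offDiag, Finset.mem_univ, true_and, Pr, Finset.mem_union,
      Finset.mem_filter, Finset.mem_map, Function.Embedding.coeFn_mk, Prod.exists,
      Prod.swap_prod_mk, Prod.mk.injEq]
    constructor
    · intro hab
      rcases lt_or_gt_of_ne hab with h | h
      · exact Or.inl h
      · exact Or.inr ⟨b, a, h, rfl, rfl⟩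
    · rintro (h | ⟨c, d, h, rfl, rfl⟩)
      · exact h.ne
      · exact h.ne'
  have h3 : Disjoint (Pr n) ((Pr n).map ⟨Prod.swap, Prod.swap_injective⟩) := by
    rw [Finset.disjoint_left]
    rintro ⟨a, b⟩ hab hba
    simp only [Pr, Finset.mem_filter, Finset.mem_univ, true_and, Finset.mem_map,
      Function.Embedding.coeFn_mk, Prod.exists, Prod.swap_prod_mk, Prod.mk.injEq] at hab hba
    obtain ⟨c, d, h, rfl, rfl⟩ := hba
    exact absurd h (not_lt.2 hab.le)
  rw [← h1, h2, Finset.card_union_of_disjoint h3, Finset.card_map]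
  ring

theorem exists_gap {α : Type*} (s : Finset α) (g : α → ℝ) (hg : ∀ a ∈ s, 0 < g a) :
    ∃ c : ℝ, 0 < c ∧ ∀ a ∈ s, c < g a := by
  classical
  induction s using Finset.induction_on with
  | empty => exact ⟨1, one_pos, by simp⟩
  | insert a s ha ih =>
    obtain ⟨c, hc, h1⟩ := ih (fun a ha => hg a (Finset.mem_insert_of_mem ha))
    have h2 := hg a (Finset.mem_insert_self _ _)
    refine ⟨min c (g a / 2), by positivity, ?_⟩
    intro x hx
    rcases Finset.mem_insert.1 hx with rfl | hx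
    · exact (min_le_right _ _).trans_lt (half_lt_self h2)
    · exact (min_le_left _ _).trans_lt (h1 x hx)

theorem no_clique_near [FiniteDimensional ℝ V] (K0 : ConvexBody V)
    (hK0 : (interior (K0 : Set V)).Nonempty) (hSC : SC K0) {n : ℕ}
    (hn : 2 * Module.finrank ℝ V + 2 ≤ n) (m : ℕ) {ρ : ℝ} (hρ : 0 < ρ) :
    ∃ K' : ConvexBody V, dist K' K0 < ρ ∧ ((∀ y ∈ K0, -y ∈ K0) → ∀ y ∈ K', -y ∈ K') ∧
      ¬ ∃ (q : Fin n → V × ℝ) (w : Fin (n + 1) → Fin (n + 1) → V), Clq (m : ℝ) K' q w := by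
  classical
  rcases Nat.eq_zero_or_pos m with hm0 | hm0
  · subst hm0
    refine ⟨K0, by simpa using hρ, id, ?_⟩
    rintro ⟨q, w, -, h2, -⟩
    have := (h2 0).2
    simp [L] at this
    linarith
  have hm : (0:ℝ) < m := by exact_mod_cast hm0
  obtain ⟨δ, hδ, ρ1, hρ1, hsep⟩ := exists_sep K0 (n := n) (m : ℝ)
    (fun q w hC i j k l hij hkl hne => clq_distinct' K0 hK0 hSC hm hC i j k l hij hkl hne)
  obtain ⟨f, C, hCs, hC2, hC1, hCe, hCd⟩ := exists_bumps_sym (V := V) (δ := δ / 2) (by positivity)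
  by_contra hcon
  push Not at hcon
  set β : ℝ := min ρ ρ1 / 3 with hβdef
  have hβ : 0 < β := by positivity
  have hβ1 : 2 * β < ρ := by
    have : min ρ ρ1 ≤ ρ := min_le_left _ _
    rw [hβdef]; linarith
  have hβ2 : 2 * β < ρ1 := by
    have : min ρ ρ1 ≤ ρ1 := min_le_right _ _
    rw [hβdef]; linarith
  have hex : ∀ b ∈ Qs f β, ∃ (q : Fin n → V × ℝ) (w : Fin (n + 1) → Fin (n + 1) → V),
      Clq (m : ℝ) (Kb K0 C β b) q w := by
    intro b hb
    exact hcon (Kb K0 C β b) ((dist_Kb K0 C hC2 hb.1 hb.2).trans_lt hβ1)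
      (Kb_symm K0 C hCs β b)
  choose! q w hqw using hex
  obtain ⟨R, hR0, hR⟩ := exists_bound K0
  set H : ℝ := R + 2 * β with hHdef
  have hH : ∀ y ∈ K0, ‖y‖ + 2 * β ≤ H := fun y hy => by
    have := hR y hy
    rw [hHdef]; linarith
  have hsepb : ∀ b ∈ Qs f β, ∀ i j k l, i ≠ j → k ≠ l → (i, j) ≠ (k, l) →
      δ ≤ ‖w b i j - w b k l‖ := fun b hb =>
    hsep _ ((dist_Kb K0 C hC2 hb.1 hb.2).trans_lt hβ2) _ _ (hqw b hb)
  refine dim_contra (Qs f β) (Qs_interior f hβ) q w ?_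
  intro b0 hb0
  have hu0 : ∀ i j, i ≠ j → ‖w b0 i j‖ = 1 := (hqw b0 hb0).2.2.2.1
  have hanti : ∀ b ∈ Qs f β, ∀ i j, w b j i = - w b i j := fun b hb => (hqw b hb).2.2.2.2.1
  have hk : ∀ p : Fin (n + 1) × Fin (n + 1), p ∈ Pr n → ∃ k, 1 < h (C k) (w b0 p.1 p.2) := by
    intro p hp
    have hp' : p.1 < p.2 := (Finset.mem_filter.1 hp).2
    exact hCe _ (hu0 _ _ hp'.ne)
  have : Nonempty (Fin f) := by
    obtain ⟨k, -⟩ := hk (0, Fin.last n) (by
      rw [Pr, Finset.mem_filter]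
      refine ⟨Finset.mem_univ _, ?_⟩
      show (0 : Fin (n + 1)) < Fin.last n
      rw [Fin.lt_def]
      simp only [Fin.val_zero, Fin.val_last]
      omega)
    exact ⟨k⟩
  choose! kk hkk using hk
  obtain ⟨c1, hc1, hgap⟩ := exists_gap (Pr n) (fun p => h (C (kk p)) (w b0 p.1 p.2) - 1)
    (fun p hp => sub_pos.2 (hkk p hp))
  -- separation of the pairs
  have hpair : ∀ p ∈ Pr n, ∀ p' ∈ Pr n, p ≠ p' → δ ≤ ‖w b0 p.1 p.2 - w b0 p'.1 p'.2‖ ∧
      δ ≤ ‖w b0 p.1 p.2 + w b0 p'.1 p'.2‖ := by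
    intro p hp p' hp' hne
    have h1 : p.1 < p.2 := (Finset.mem_filter.1 hp).2
    have h2 : p'.1 < p'.2 := (Finset.mem_filter.1 hp').2
    constructor
    · exact hsepb b0 hb0 _ _ _ _ h1.ne h2.ne (by simpa using hne)
    · have h3 := hsepb b0 hb0 p.1 p.2 p'.2 p'.1 h1.ne h2.ne' (by
        intro h4
        rw [Prod.mk.injEq] at h4
        rw [h4.1, h4.2] at h1
        exact absurd h1 (not_lt.2 h2.le))
      rw [hanti b0 hb0 p'.1 p'.2, sub_neg_eq_add] at h3
      exact h3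
  have hinj : Set.InjOn kk (Pr n : Set (Fin (n + 1) × Fin (n + 1))) := by
    intro p hp p' hp' heq
    by_contra hne
    have hp1 : p.1 < p.2 := (Finset.mem_filter.1 hp).2
    have hp2 : p'.1 < p'.2 := (Finset.mem_filter.1 hp').2
    obtain ⟨h1, h2⟩ := hpair p hp p' hp' hne
    have h3 := hkk p hp
    have h4 := hkk p' hp'
    rw [← heq] at h4
    rcases hCd (kk p) _ _ (hu0 _ _ hp1.ne) (hu0 _ _ hp2.ne) h3 h4 with h5 | h5 <;> linarith
  refine ⟨{z | ∀ p ∈ Pr n, 1 + c1 < h (C (kk p)) (z.2.2 p.1 p.2) ∧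
      ‖z.2.2 p.1 p.2 - w b0 p.1 p.2‖ < δ / 4}, ?_, (Pr n).image kk,
      (m / c1) * (2 + 2 * H + 2 * m), by positivity, ?_, ?_⟩
  · have : ∀ p ∈ Pr n, ∀ᶠ z : (Fin f → ℝ) × ((Fin n → V × ℝ) × (Fin (n + 1) → Fin (n + 1) → V))
        in 𝓝 (b0, q b0, w b0), 1 + c1 < h (C (kk p)) (z.2.2 p.1 p.2) ∧
      ‖z.2.2 p.1 p.2 - w b0 p.1 p.2‖ < δ / 4 := by
      intro p hp
      apply Filter.Eventually.and
      · have hcont : Continuous (fun z : (Fin f → ℝ) × ((Fin n → V × ℝ) ×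
            (Fin (n + 1) → Fin (n + 1) → V)) => h (C (kk p)) (z.2.2 p.1 p.2)) :=
          continuous_h.comp (continuous_const.prodMk (by fun_prop))
        refine hcont.continuousAt.eventually (lt_mem_nhds ?_)
        have := hgap p hp
        show 1 + c1 < h (C (kk p)) (w b0 p.1 p.2)
        linarith
      · have hcont : Continuous (fun z : (Fin f → ℝ) × ((Fin n → V × ℝ) ×
            (Fin (n + 1) → Fin (n + 1) → V)) => ‖z.2.2 p.1 p.2 - w b0 p.1 p.2‖) := by fun_prop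
        refine hcont.continuousAt.eventually (gt_mem_nhds ?_)
        show ‖w b0 p.1 p.2 - w b0 p.1 p.2‖ < δ / 4
        rw [sub_self, norm_zero]
        positivity
    exact (Filter.eventually_all_finset (Pr n)).2 this
  · rw [Finset.card_image_of_injOn hinj]
    have h1 := card_Pr n
    have h2 : Module.finrank ℝ (Fin n → V × ℝ) = n * (Module.finrank ℝ V + 1) := by
      rw [Module.finrank_pi_fintype]
      simp
    rw [h2]
    nlinarith
  · -- the Lipschitz estimate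
    have key : ∀ b ∈ Qs f β, ∀ b' ∈ Qs f β,
        (∀ p ∈ Pr n, 1 + c1 < h (C (kk p)) (w b' p.1 p.2) ∧
          ‖w b' p.1 p.2 - w b0 p.1 p.2‖ < δ / 4) → ∀ k ∈ (Pr n).image kk,
        b' k - b k ≤ (m / c1) * (2 + 2 * H + 2 * m) *
          (‖q b - q b'‖ + ∑ l ∈ ((Pr n).image kk)ᶜ, |b l - b' l|) := by
      intro b hb b' hb' hU' k hkmem
      obtain ⟨p, hp, rfl⟩ := Finset.mem_image.1 hkmem
      have hp1 : p.1 < p.2 := (Finset.mem_filter.1 hp).2
      have hu' : ‖w b' p.1 p.2‖ = 1 := (hqw b' hb').2.2.2.1 _ _ hp1.ne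
      have hun : ‖-(w b' p.1 p.2)‖ = 1 := by rw [norm_neg]; exact hu'
      have hnear := (hU' p hp).2
      refine local_lip K0 C hC2 hC1 hm hH hc1 hb.1 hb.2 hb'.1 hb'.2 (hqw b hb) (hqw b' hb')
        ((Pr n).image kk) (kk p) hkmem p.1 p.2 hp1.ne (hU' p hp).1.le ?_ ?_
      · intro l hl hlk
        obtain ⟨p', hp', rfl⟩ := Finset.mem_image.1 hl
        have hne : p ≠ p' := fun h => hlk (by rw [h])
        have hp2 : p'.1 < p'.2 := (Finset.mem_filter.1 hp').2
        obtain ⟨h1, h2⟩ := hpair p hp p' hp' hne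
        apply le_antisymm _ (by rw [← hu']; exact hC1 _ _)
        by_contra hgt
        push Not at hgt
        rcases hCd (kk p') _ _ hu' (hu0 _ _ hp2.ne) hgt (hkk p' hp') with h5 | h5
        · have : ‖w b0 p.1 p.2 - w b0 p'.1 p'.2‖ ≤ ‖w b' p.1 p.2 - w b0 p.1 p.2‖
              + ‖w b' p.1 p.2 - w b0 p'.1 p'.2‖ := by
            have e : w b0 p.1 p.2 - w b0 p'.1 p'.2 = -(w b' p.1 p.2 - w b0 p.1 p.2)
              + (w b' p.1 p.2 - w b0 p'.1 p'.2) := by abel
            rw [e]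
            refine (norm_add_le _ _).trans ?_
            rw [norm_neg]
          linarith
        · have : ‖w b0 p.1 p.2 + w b0 p'.1 p'.2‖ ≤ ‖w b' p.1 p.2 - w b0 p.1 p.2‖
              + ‖w b' p.1 p.2 + w b0 p'.1 p'.2‖ := by
            have e : w b0 p.1 p.2 + w b0 p'.1 p'.2 = -(w b' p.1 p.2 - w b0 p.1 p.2)
              + (w b' p.1 p.2 + w b0 p'.1 p'.2) := by abel
            rw [e]
            refine (norm_add_le _ _).trans ?_
            rw [norm_neg]
          linarith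
      · intro l hl hlk
        obtain ⟨p', hp', rfl⟩ := Finset.mem_image.1 hl
        have hne : p ≠ p' := fun h => hlk (by rw [h])
        have hp2 : p'.1 < p'.2 := (Finset.mem_filter.1 hp').2
        obtain ⟨h1, h2⟩ := hpair p hp p' hp' hne
        apply le_antisymm _ (by rw [← hun]; exact hC1 _ _)
        by_contra hgt
        push Not at hgt
        rcases hCd (kk p') _ _ hun (hu0 _ _ hp2.ne) hgt (hkk p' hp') with h5 | h5
        · have : ‖w b0 p.1 p.2 + w b0 p'.1 p'.2‖ ≤ ‖w b' p.1 p.2 - w b0 p.1 p.2‖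
              + ‖-(w b' p.1 p.2) - w b0 p'.1 p'.2‖ := by
            have e : w b0 p.1 p.2 + w b0 p'.1 p'.2 = -(w b' p.1 p.2 - w b0 p.1 p.2)
              - (-(w b' p.1 p.2) - w b0 p'.1 p'.2) := by abel
            rw [e]
            refine (norm_sub_le _ _).trans ?_
            rw [norm_neg]
          linarith
        · have : ‖w b0 p.1 p.2 - w b0 p'.1 p'.2‖ ≤ ‖w b' p.1 p.2 - w b0 p.1 p.2‖
              + ‖-(w b' p.1 p.2) + w b0 p'.1 p'.2‖ := by
            have e : w b0 p.1 p.2 - w b0 p'.1 p'.2 = -(w b' p.1 p.2 - w b0 p.1 p.2)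
              - (-(w b' p.1 p.2) + w b0 p'.1 p'.2) := by abel
            rw [e]
            refine (norm_sub_le _ _).trans ?_
            rw [norm_neg]
          linarith
    intro b hb b' hb' hU hU' k hkmem
    have e1 := key b hb b' hb' hU' k hkmem
    have e2 := key b' hb' b hb hU k hkmem
    have e3 : ‖q b' - q b‖ = ‖q b - q b'‖ := norm_sub_rev _ _
    have e4 : ∑ l ∈ ((Pr n).image kk)ᶜ, |b' l - b l| = ∑ l ∈ ((Pr n).image kk)ᶜ, |b l - b' l| :=
      Finset.sum_congr rfl (fun l _ => abs_sub_comm _ _)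
    rw [e3, e4] at e2
    rw [abs_le]
    constructor <;> linarith

end Typ
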