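import Pool.Agent.Typ.Defs

open Set Metric Topology
open scoped InnerProductSpace Pointwise NNReal

namespace Typ

variable {V : Type*} [NormedAddCommGroup V] [InnerProductSpace ℝ V]

theorem bdd (K : ConvexBody V) (w : V) : BddAbove ((fun y => ⟪w, y⟫_ℝ) '' (K : Set V)) :=
  (K.isCompact.image (by fun_prop)).bddAbove

theorem le_h (K : ConvexBody V) (w : V) {y : V} (hy : y ∈ K) : ⟪w, y⟫_ℝ ≤ h K w :=
  le_csSup (bdd K w) ⟨y, hy, rfl⟩

theorem exists_h (K : ConvexBody V) (w : V) : ∃ y ∈ K, ⟪w, y⟫_ℝ = h K w := by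
  have hc : IsCompact ((fun y => ⟪w, y⟫_ℝ) '' (K : Set V)) := K.isCompact.image (by fun_prop)
  obtain ⟨y, hy, h1⟩ := hc.sSup_mem (K.nonempty.image _)
  exact ⟨y, hy, h1⟩

theorem h_le (K : ConvexBody V) (w : V) {c : ℝ} (H : ∀ y ∈ K, ⟪w, y⟫_ℝ ≤ c) : h K w ≤ c := by
  obtain ⟨y, hy, h1⟩ := exists_h K w
  rw [← h1]; exact H y hy

theorem h_add (K K' : ConvexBody V) (w : V) : h (K + K') w = h K w + h K' w := by
  apply le_antisymm
  · apply h_le
    intro y hy
    have hy' : y ∈ ((K + K' : ConvexBody V) : Set V) := hy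
    rw [ConvexBody.coe_add] at hy'
    obtain ⟨a, ha, b, hb, rfl⟩ := hy'
    show ⟪w, a + b⟫_ℝ ≤ _
    rw [inner_add_right]
    exact add_le_add (le_h K w ha) (le_h K' w hb)
  · obtain ⟨a, ha, h1⟩ := exists_h K w
    obtain ⟨b, hb, h2⟩ := exists_h K' w
    rw [← h1, ← h2, ← inner_add_right]
    apply le_h
    show a + b ∈ ((K + K' : ConvexBody V) : Set V)
    rw [ConvexBody.coe_add]
    exact ⟨a, ha, b, hb, rfl⟩

theorem h_smul (K : ConvexBody V) {c : ℝ} (hc : 0 ≤ c) (w : V) : h (c • K) w = c * h K w := by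
  apply le_antisymm
  · apply h_le
    intro y hy
    have hy' : y ∈ ((c • K : ConvexBody V) : Set V) := hy
    rw [ConvexBody.coe_smul] at hy'
    obtain ⟨a, ha, rfl⟩ := hy'
    show ⟪w, c • a⟫_ℝ ≤ _
    rw [real_inner_smul_right]
    exact mul_le_mul_of_nonneg_left (le_h K w ha) hc
  · obtain ⟨a, ha, h1⟩ := exists_h K w
    rw [← h1, ← real_inner_smul_right]
    apply le_h
    show c • a ∈ ((c • K : ConvexBody V) : Set V)
    rw [ConvexBody.coe_smul]
    exact ⟨a, ha, rfl⟩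

theorem h_zero (w : V) : h (0 : ConvexBody V) w = 0 := by
  obtain ⟨y, hy, h1⟩ := exists_h (0 : ConvexBody V) w
  have : y ∈ ((0 : ConvexBody V) : Set V) := hy
  rw [ConvexBody.coe_zero] at this
  have : y = 0 := this
  subst this
  rw [← h1, inner_zero_right]

theorem h_sum {ι : Type*} (s : Finset ι) (F : ι → ConvexBody V) (w : V) :
    h (∑ i ∈ s, F i) w = ∑ i ∈ s, h (F i) w := by
  classical
  induction s using Finset.induction_on with
  | empty => simp [h_zero]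
  | insert a s ha ih => rw [Finset.sum_insert ha, Finset.sum_insert ha, h_add, ih]

theorem h_dist (K K' : ConvexBody V) (w : V) : h K w ≤ h K' w + ‖w‖ * dist K K' := by
  apply h_le
  intro y hy
  have hne : Metric.hausdorffEDist (K : Set V) (K' : Set V) ≠ ⊤ := ConvexBody.hausdorffEDist_ne_top
  have h1 : infDist y (K' : Set V) ≤ dist K K' := by
    rw [← ConvexBody.hausdorffDist_coe]
    exact infDist_le_hausdorffDist_of_mem hy hne
  obtain ⟨z, hz, h2⟩ := K'.isCompact.exists_infDist_eq_dist K'.nonempty y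
  have h3 : ⟪w, y⟫_ℝ = ⟪w, z⟫_ℝ + ⟪w, y - z⟫_ℝ := by rw [inner_sub_right]; ring
  have h4 : ⟪w, y - z⟫_ℝ ≤ ‖w‖ * dist K K' := by
    refine (real_inner_le_norm _ _).trans ?_
    apply mul_le_mul_of_nonneg_left _ (norm_nonneg _)
    rw [← dist_eq_norm, ← h2]; exact h1
  have h5 := le_h K' w hz
  linarith

theorem h_lip_dir (K : ConvexBody V) {R : ℝ} (hR : ∀ y ∈ K, ‖y‖ ≤ R) (w w' : V) :
    h K w ≤ h K w' + R * ‖w - w'‖ := by
  apply h_le
  intro y hy
  have h3 : ⟪w, y⟫_ℝ = ⟪w', y⟫_ℝ + ⟪w - w', y⟫_ℝ := by rw [inner_sub_left]; ring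
  have h4 : ⟪w - w', y⟫_ℝ ≤ R * ‖w - w'‖ := by
    refine (real_inner_le_norm _ _).trans ?_
    rw [mul_comm]
    exact mul_le_mul_of_nonneg_right (hR y hy) (norm_nonneg _)
  have h5 := le_h K w' hy
  linarith

theorem exists_bound (K : ConvexBody V) : ∃ R : ℝ, 0 < R ∧ ∀ y ∈ K, ‖y‖ ≤ R := by
  obtain ⟨R, hR⟩ := K.isBounded.exists_norm_le
  exact ⟨max R 1, by positivity, fun y hy => (hR y hy).trans (le_max_left _ _)⟩

theorem continuous_h : Continuous (fun p : ConvexBody V × V => h p.1 p.2) := by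
  rw [continuous_iff_continuousAt]
  rintro ⟨K, w⟩
  obtain ⟨R, hR0, hR⟩ := exists_bound K
  rw [Metric.continuousAt_iff]
  intro ε hε
  refine ⟨min 1 (ε / (2 * (‖w‖ + 1 + R))), by positivity, ?_⟩
  rintro ⟨K', w'⟩ hd
  rw [Prod.dist_eq, max_lt_iff] at hd
  simp only at hd
  obtain ⟨hd1, hd2⟩ := hd
  have a1 : dist K' K < 1 := hd1.trans_le (min_le_left _ _)
  have a2 : dist K' K < ε / (2 * (‖w‖ + 1 + R)) := hd1.trans_le (min_le_right _ _)
  have a3 : ‖w' - w‖ < 1 := by rw [← dist_eq_norm]; exact hd2.trans_le (min_le_left _ _)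
  have a4 : ‖w' - w‖ < ε / (2 * (‖w‖ + 1 + R)) := by
    rw [← dist_eq_norm]; exact hd2.trans_le (min_le_right _ _)
  have hw' : ‖w'‖ ≤ ‖w‖ + 1 := by
    have := norm_sub_norm_le w' w
    linarith
  have b1 := h_dist K' K w'
  have b2 := h_dist K K' w'
  rw [dist_comm] at b2
  have b3 := h_lip_dir K hR w w'
  have b4 := h_lip_dir K hR w' w
  rw [norm_sub_rev] at b3
  have c0 : (0:ℝ) < 2 * (‖w‖ + 1 + R) := by positivity
  rw [lt_div_iff₀ c0] at a2 a4
  have c1 : ‖w'‖ * dist K' K ≤ (‖w‖ + 1) * dist K' K :=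
    mul_le_mul_of_nonneg_right hw' dist_nonneg
  have c2 : R * ‖w' - w‖ ≤ (‖w‖ + 1 + R) * ‖w' - w‖ :=
    mul_le_mul_of_nonneg_right (by linarith [norm_nonneg w]) (norm_nonneg _)
  have c3 : (‖w‖ + 1) * dist K' K ≤ (‖w‖ + 1 + R) * dist K' K :=
    mul_le_mul_of_nonneg_right (by linarith) dist_nonneg
  show dist (h K' w') (h K w) < ε
  rw [Real.dist_eq, abs_lt]
  constructor <;> nlinarith

theorem dist_add_le (K T : ConvexBody V) {r : ℝ} (hr : 0 ≤ r) (hT : ∀ y ∈ T, ‖y‖ ≤ r) :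
    dist (K + T) K ≤ r := by
  rw [← ConvexBody.hausdorffDist_coe]
  obtain ⟨t, ht⟩ := T.nonempty
  apply hausdorffDist_le_of_mem_dist hr
  · intro y hy
    rw [ConvexBody.coe_add] at hy
    obtain ⟨a, ha, b, hb, rfl⟩ := hy
    refine ⟨a, ha, ?_⟩
    show dist (a + b) a ≤ r
    rw [dist_eq_norm, add_sub_cancel_left]
    exact hT b hb
  · intro a ha
    refine ⟨a + t, ?_, ?_⟩
    · rw [ConvexBody.coe_add]; exact ⟨a, ha, t, ht, rfl⟩
    · rw [dist_eq_norm, sub_add_cancel_left, norm_neg]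
      exact hT t ht

end Typ
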